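import Mathlib

/-! # Once-punctured torus: trace functions of simple closed curves -/

open Real

noncomputable section

namespace Run7.h568.HB

/-- Intersection number of two slopes. -/
def det (u v : ℤ × ℤ) : ℤ := u.1 * v.2 - u.2 * v.1

/-- `u`, `v` form a basis of `ℤ²`. -/
def Basis (u v : ℤ × ℤ) : Prop := det u v = 1 ∨ det u v = -1

/-- A point of the Teichmueller space of the once-punctured torus, given by the traces of the
simple closed curves: `t (p, q)`, `p`, `q` coprime, is the trace of the curve of slope `(p, q)`. -/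
structure Tor where
  t : ℤ × ℤ → ℝ
  neg : ∀ w, t (-w) = t w
  big : ∀ u v, Basis u v → 2 < t u
  edge : ∀ u v, Basis u v → t (u + v) + t (u - v) = t u * t v
  vert : ∀ u v, Basis u v → t u ^ 2 + t v ^ 2 + t (u + v) ^ 2 = t u * t v * t (u + v)
  triv : ∀ w, (∀ v, ¬ Basis w v) → t w = 0

namespace Tor

variable (X : Tor)

/-- Large eigenvalue. -/
def E (w : ℤ × ℤ) : ℝ := (X.t w + √(X.t w ^ 2 - 4)) / 2

/-- Length of the closed geodesic: `t = 2 cosh (len / 2)`. -/
def len (w : ℤ × ℤ) : ℝ := 2 * log (X.E w)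

theorem E_spec {u v : ℤ × ℤ} (h : Basis u v) : 1 < X.E u ∧ X.E u + (X.E u)⁻¹ = X.t u := by
  have h2 := X.big u v h
  have h3 : (0:ℝ) ≤ X.t u ^ 2 - 4 := by nlinarith
  have h4 := Real.sq_sqrt h3
  have h5 := Real.sqrt_nonneg (X.t u ^ 2 - 4)
  have h6 : 1 < X.E u := by unfold E; linarith
  refine ⟨h6, ?_⟩
  have h7 : X.E u ^ 2 - X.t u * X.E u + 1 = 0 := by
    unfold E; nlinarith
  have h8 : X.E u ≠ 0 := by linarith
  field_simp
  nlinarith

theorem len_pos {u v : ℤ × ℤ} (h : Basis u v) : 0 < X.len u := by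
  have := (X.E_spec h).1
  unfold len
  have := Real.log_pos this
  linarith

theorem exp_len {u v : ℤ × ℤ} (h : Basis u v) : exp (X.len u / 2) = X.E u := by
  have := (X.E_spec h).1
  unfold len
  rw [mul_div_cancel_left₀ _ (two_ne_zero), Real.exp_log (by linarith)]

theorem two_cosh {u v : ℤ × ℤ} (h : Basis u v) : 2 * cosh (X.len u / 2) = X.t u := by
  rw [Real.cosh_eq, Real.exp_neg, X.exp_len h, ← (X.E_spec h).2]; ring

theorem le_len {u v : ℤ × ℤ} (h : Basis u v) {r : ℝ} (hr : 2 * cosh (r / 2) ≤ X.t u) :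
    |r| ≤ X.len u := by
  rw [← X.two_cosh h] at hr
  have h1 : cosh (r / 2) ≤ cosh (X.len u / 2) := by linarith
  rw [Real.cosh_le_cosh] at h1
  have := X.len_pos h
  rw [abs_div, abs_div, abs_of_pos this] at h1
  simp at h1
  linarith

theorem basis_shift {u v : ℤ × ℤ} (h : Basis u v) (k : ℤ) : Basis u (v + k • u) := by
  unfold Basis det at *
  simp only [Prod.fst_add, Prod.snd_add, Prod.smul_fst, Prod.smul_snd, smul_eq_mul]
  rcases h with h | h
  · left; linear_combination h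
  · right; linear_combination h

theorem basis_swap {u v : ℤ × ℤ} (h : Basis u v) : Basis v u := by
  unfold Basis det at *
  rcases h with h | h
  · right; linear_combination -h
  · left; linear_combination -h

/-- First coefficient of `t (v + k u) = A E^k + B E^(-k)`. -/
def A (u v : ℤ × ℤ) : ℝ := (X.t (v + u) - X.t v * (X.E u)⁻¹) / (X.E u - (X.E u)⁻¹)

def B (u v : ℤ × ℤ) : ℝ := (X.E u * X.t v - X.t (v + u)) / (X.E u - (X.E u)⁻¹)

theorem AB {u v : ℤ × ℤ} (h : Basis u v) : 0 < X.A u v ∧ 0 < X.B u v ∧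
    1 ≤ X.A u v * X.B u v := by
  obtain ⟨h1, h2⟩ := X.E_spec h
  have h3 := X.vert v u (basis_swap h)
  have h4 := X.big u v h
  have h4' := X.big v u (basis_swap h)
  set e := X.E u
  have he : 0 < e := by linarith
  have hi : e⁻¹ < 1 := inv_lt_one_of_one_lt₀ h1
  have hi0 : 0 < e⁻¹ := inv_pos.2 he
  have hd : 0 < e - e⁻¹ := by linarith
  have hei : e * e⁻¹ = 1 := mul_inv_cancel₀ he.ne'
  have hprod : X.A u v * X.B u v = X.t u ^ 2 / (e - e⁻¹) ^ 2 := by
    unfold A B
    rw [div_mul_div_comm, ← sq]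
    congr 1
    rw [← h2] at h3 ⊢
    show (X.t (v + u) - X.t v * e⁻¹) * (e * X.t v - X.t (v + u)) = _
    linear_combination (-1 : ℝ) * h3 - (X.t v) ^ 2 * hei
  have hsum : X.A u v + X.B u v = X.t v := by
    unfold A B
    rw [← add_div, div_eq_iff hd.ne']
    show X.t (v + u) - X.t v * e⁻¹ + (e * X.t v - X.t (v + u)) = _
    ring
  have h1' : 1 ≤ X.A u v * X.B u v := by
    rw [hprod, one_le_div (by positivity), ← h2]
    have : e - e⁻¹ ≤ e + e⁻¹ := by linarith
    exact pow_le_pow_left₀ hd.le this 2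
  have hA : 0 < X.A u v := by
    by_contra hc
    push Not at hc
    have : X.B u v < 0 ∨ 0 ≤ X.B u v := lt_or_ge _ _
    rcases this with hb | hb
    · linarith
    · nlinarith
  have hB : 0 < X.B u v := by
    by_contra hc
    push Not at hc
    nlinarith
  exact ⟨hA, hB, h1'⟩

theorem form {u v : ℤ × ℤ} (h : Basis u v) (k : ℤ) :
    X.t (v + k • u) = X.A u v * X.E u ^ k + X.B u v * X.E u ^ (-k) := by
  obtain ⟨h1, h2⟩ := X.E_spec h
  set e := X.E u with hedef
  have he : 0 < e := by linarith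
  have hi : e⁻¹ < 1 := inv_lt_one_of_one_lt₀ h1
  have hd : 0 < e - e⁻¹ := by linarith
  have hei : e * e⁻¹ = 1 := mul_inv_cancel₀ he.ne'
  have step : ∀ k : ℤ, X.t (v + (k + 1) • u) + X.t (v + (k - 1) • u) =
      (e + e⁻¹) * X.t (v + k • u) := by
    intro k
    have := X.edge (v + k • u) u (basis_swap (basis_shift h k))
    rw [h2, add_smul, sub_smul, one_smul, mul_comm, ← this]
    congr 2 <;> abel
  have s0 : X.A u v + X.B u v = X.t v := by
    unfold A B
    rw [← add_div, div_eq_iff hd.ne']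
    show X.t (v + u) - X.t v * e⁻¹ + (e * X.t v - X.t (v + u)) = _
    ring
  have s1 : X.A u v * e + X.B u v * e⁻¹ = X.t (v + u) := by
    unfold A B
    show (X.t (v + u) - X.t v * e⁻¹) / (e - e⁻¹) * e + (e * X.t v - X.t (v + u)) / (e - e⁻¹) * e⁻¹ = _
    rw [div_mul_eq_mul_div, div_mul_eq_mul_div, ← add_div, div_eq_iff hd.ne']
    ring
  set a := X.A u v
  set b := X.B u v
  have rec' : ∀ k : ℤ, a * e ^ (k + 1) + b * e ^ (-(k + 1)) + (a * e ^ (k - 1) + b * e ^ (-(k - 1))) =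
      (e + e⁻¹) * (a * e ^ k + b * e ^ (-k)) := by
    intro k
    rw [zpow_add₀ he.ne', zpow_sub₀ he.ne', neg_add, neg_sub, zpow_add₀ he.ne', zpow_sub₀ he.ne']
    simp only [zpow_one, zpow_neg]
    field_simp
    ring
  have key : ∀ n : ℕ, (X.t (v + (n : ℤ) • u) = a * e ^ (n : ℤ) + b * e ^ (-(n : ℤ)) ∧
      X.t (v + ((n : ℤ) + 1) • u) = a * e ^ ((n : ℤ) + 1) + b * e ^ (-((n : ℤ) + 1))) ∧
      (X.t (v + (-(n : ℤ)) • u) = a * e ^ (-(n : ℤ)) + b * e ^ (-(-(n : ℤ))) ∧
      X.t (v + (-(n : ℤ) + 1) • u) = a * e ^ (-(n : ℤ) + 1) + b * e ^ (-(-(n : ℤ) + 1))) := by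
    intro n
    induction n with
    | zero =>
      have q0 : X.t (v + (0 : ℤ) • u) = a * e ^ (0 : ℤ) + b * e ^ (-(0 : ℤ)) := by
        simp [s0]
      have q1 : X.t (v + ((0 : ℤ) + 1) • u) = a * e ^ ((0 : ℤ) + 1) + b * e ^ (-((0 : ℤ) + 1)) := by
        simp [s1]
      simp only [Nat.cast_zero, neg_zero] at *
      exact ⟨⟨q0, q1⟩, ⟨q0, q1⟩⟩
    | succ n ih =>
      obtain ⟨⟨i1, i2⟩, i3, i4⟩ := ih
      push_cast
      refine ⟨⟨i2, ?_⟩, ?_, ?_⟩
      · have r1 := step ((n : ℤ) + 1)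
        have r2 := rec' ((n : ℤ) + 1)
        rw [add_sub_cancel_right] at r1 r2
        rw [i2, i1] at r1
        linarith
      · have r1 := step (-(n : ℤ))
        have r2 := rec' (-(n : ℤ))
        have : -((n : ℤ) + 1) = -(n : ℤ) - 1 := by ring
        rw [this]
        rw [i3, i4] at r1
        linarith
      · have : -((n : ℤ) + 1) + 1 = -(n : ℤ) := by ring
        rw [this]
        exact i3
  rcases Int.eq_nat_or_neg k with ⟨n, rfl | rfl⟩
  · exact (key n).1.1
  · exact (key n).2.1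

/-- Twist parameter. -/
def th (u v : ℤ × ℤ) : ℝ := log (X.A u v / X.B u v)

theorem tw {u v : ℤ × ℤ} (h : Basis u v) (k : ℤ) :
    2 * cosh ((k * X.len u + X.th u v) / 2) ≤ X.t (v + k • u) := by
  obtain ⟨hA, hB, hAB⟩ := X.AB h
  rw [X.form h k]
  have he : 0 < X.E u := by linarith [(X.E_spec h).1]
  set c := X.A u v
  set b := X.B u v
  have e1 : exp (k * X.len u / 2) = X.E u ^ k := by
    rw [← X.exp_len h, ← Real.rpow_intCast, ← Real.exp_mul]; congr 1; ring
  have e2 : exp (-(k * X.len u / 2)) = X.E u ^ (-k) := by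
    rw [← X.exp_len h, ← Real.rpow_intCast, ← Real.exp_mul]; congr 1; push_cast; ring
  have e3 : exp (X.th u v / 2) = √(c / b) := by
    rw [th, Real.exp_half, Real.exp_log (div_pos hA hB)]
  have e4 : exp (-(X.th u v / 2)) = √(b / c) := by
    rw [Real.exp_neg, e3, ← Real.sqrt_inv, inv_div]
  have f1 : √(c / b) ≤ c := by
    rw [Real.sqrt_le_left hA.le, div_le_iff₀ hB]; nlinarith
  have f2 : √(b / c) ≤ b := by
    rw [Real.sqrt_le_left hB.le, div_le_iff₀ hA]; nlinarith
  rw [Real.cosh_eq]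
  have g1 : exp ((k * X.len u + X.th u v) / 2) = X.E u ^ k * √(c / b) := by
    rw [add_div, Real.exp_add, e1, e3]
  have g2 : exp (-((k * X.len u + X.th u v) / 2)) = X.E u ^ (-k) * √(b / c) := by
    rw [add_div, neg_add, Real.exp_add, e2, e4]
  rw [g1, g2]
  have p1 : 0 < X.E u ^ k := zpow_pos he k
  have p2 : 0 < X.E u ^ (-k) := zpow_pos he (-k)
  nlinarith [mul_le_mul_of_nonneg_left f1 p1.le, mul_le_mul_of_nonneg_left f2 p2.le]

end Tor

end Run7.h568.HB
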