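import Pool.Agent.Run7.h568.HB.A

open Real

noncomputable section

namespace Run7.h568.HB

/-- Coordinates. -/
def detR (x y : ℝ × ℝ) : ℝ := x.1 * y.2 - x.2 * y.1

/-- The real vector of an integer vector. -/
def rv (w : ℤ × ℤ) : ℝ × ℝ := (w.1, w.2)

namespace Tor

variable (X : Tor)

/-- Supporting functional at `u`: `u ↦ len u`, `v ↦ th u v`. -/
def phi (u v : ℤ × ℤ) (x : ℝ × ℝ) : ℝ :=
  (detR x (rv v) * X.len u + detR (rv u) x * X.th u v) * det u v

theorem phi_add (u v : ℤ × ℤ) (x y : ℝ × ℝ) : X.phi u v (x + y) = X.phi u v x + X.phi u v y := by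
  unfold phi detR; simp; ring

theorem phi_smul (u v : ℤ × ℤ) (c : ℝ) (x : ℝ × ℝ) : X.phi u v (c • x) = c * X.phi u v x := by
  unfold phi detR; simp; ring

theorem rv_add (a b : ℤ × ℤ) : rv (a + b) = rv a + rv b := by
  unfold rv; simp

theorem rv_neg (a : ℤ × ℤ) : rv (-a) = -rv a := by
  unfold rv; simp

theorem rv_smul (k : ℤ) (a : ℤ × ℤ) : rv (k • a) = (k : ℝ) • rv a := by
  unfold rv; simp

/-- Comparison function. -/
def tau (u v w : ℤ × ℤ) : ℝ := 2 * cosh (X.phi u v (rv w) / 2)

theorem tau_edge (u v a b : ℤ × ℤ) :
    X.tau u v (a + b) + X.tau u v (a - b) = X.tau u v a * X.tau u v b := by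
  unfold tau
  rw [sub_eq_add_neg, rv_add, rv_add, rv_neg, phi_add, phi_add, ← neg_one_smul ℝ (rv b), phi_smul]
  have h1 : (X.phi u v (rv a) + X.phi u v (rv b)) / 2 = X.phi u v (rv a) / 2 + X.phi u v (rv b) / 2 := by
    ring
  have h2 : (X.phi u v (rv a) + -1 * X.phi u v (rv b)) / 2 =
      X.phi u v (rv a) / 2 - X.phi u v (rv b) / 2 := by ring
  rw [h1, h2, Real.cosh_add, Real.cosh_sub]; ring

theorem tau_two (u v a : ℤ × ℤ) : 2 ≤ X.tau u v a := by
  unfold tau; have := Real.one_le_cosh (X.phi u v (rv a) / 2); linarith

theorem tau_neg (u v a : ℤ × ℤ) : X.tau u v (-a) = X.tau u v a := by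
  unfold tau; rw [rv_neg, ← neg_one_smul ℝ (rv a), phi_smul]
  rw [show -1 * X.phi u v (rv a) / 2 = -(X.phi u v (rv a) / 2) by ring, Real.cosh_neg]

/-- The gap. -/
def gap (u v w : ℤ × ℤ) : ℝ := X.t w - X.tau u v w

theorem basis_add_left {a b : ℤ × ℤ} (h : Basis a b) : Basis (a + b) b := by
  unfold Basis det at *
  simp only [Prod.fst_add, Prod.snd_add]
  rcases h with h | h
  · left; linear_combination h
  · right; linear_combination h

theorem basis_add_right {a b : ℤ × ℤ} (h : Basis a b) : Basis a (a + b) := by
  unfold Basis det at *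
  simp only [Prod.fst_add, Prod.snd_add]
  rcases h with h | h
  · left; linear_combination h
  · right; linear_combination h

theorem gap_step (u v : ℤ × ℤ) {a b : ℤ × ℤ} (h : Basis a b) (ha : 0 ≤ X.gap u v a)
    (hb : 0 ≤ X.gap u v b) :
    2 * X.gap u v a + 2 * X.gap u v b - X.gap u v (a - b) ≤ X.gap u v (a + b) := by
  have h1 := X.edge a b h
  have h2 := X.tau_edge u v a b
  have h3 := X.tau_two u v a
  have h4 := X.tau_two u v b
  unfold gap at *
  nlinarith

theorem gap_tree (u v : ℤ × ℤ) : ∀ N : ℕ, ∀ a b : ℤ × ℤ, Basis a b → 0 ≤ X.gap u v a →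
    0 ≤ X.gap u v b → X.gap u v a ≤ X.gap u v (a + b) → X.gap u v b ≤ X.gap u v (a + b) →
    ∀ p q : ℕ, 1 ≤ p → 1 ≤ q → p + q ≤ N → Nat.Coprime p q →
    0 ≤ X.gap u v ((p : ℤ) • a + (q : ℤ) • b) := by
  intro N
  induction N with
  | zero => intro a b _ _ _ _ _ p q hp hq hN; omega
  | succ N ih =>
    intro a b h ha hb hab hab' p q hp hq hN hc
    rcases lt_trichotomy p q with hlt | heq | hgt
    · -- p < q : basis (a + b, b)
      have s := X.gap_step u v (basis_add_left h) (le_trans ha hab) hb
      rw [add_sub_cancel_right] at s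
      have := ih (a + b) b (basis_add_left h) (le_trans ha hab) hb (by linarith) (by linarith)
        p (q - p) hp (by omega) (by omega) ((Nat.coprime_sub_self_right hlt.le).2 hc)
      rw [Nat.cast_sub hlt.le] at this
      convert this using 2
      module
    · subst heq
      have : p = 1 := by simpa using hc
      subst this
      simp
      linarith
    · have s := X.gap_step u v (basis_swap (basis_add_right h)) (le_trans ha hab) ha
      rw [show a + b - a = b by abel] at s
      have := ih a (a + b) (basis_add_right h) ha (le_trans ha hab)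
        (by rw [add_comm a (a + b)]; linarith) (by rw [add_comm a (a + b)]; linarith)
        (p - q) q (by omega) hq (by omega) ((Nat.coprime_sub_self_left hgt.le).2 hc)
      rw [Nat.cast_sub hgt.le] at this
      convert this using 2
      module

theorem phi_u {u v : ℤ × ℤ} (h : Basis u v) : X.phi u v (rv u) = X.len u := by
  have : (det u v : ℝ) * det u v = 1 := by
    rcases h with h | h <;> rw [h] <;> norm_num
  have e : detR (rv u) (rv v) = det u v := by unfold detR rv det; push_cast; ring
  have e' : detR (rv u) (rv u) = 0 := by unfold detR; ring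
  unfold phi
  rw [e, e']
  linear_combination X.len u * this

theorem phi_v {u v : ℤ × ℤ} (h : Basis u v) : X.phi u v (rv v) = X.th u v := by
  have : (det u v : ℝ) * det u v = 1 := by
    rcases h with h | h <;> rw [h] <;> norm_num
  have e : detR (rv u) (rv v) = det u v := by unfold detR rv det; push_cast; ring
  have e' : detR (rv v) (rv v) = 0 := by unfold detR; ring
  unfold phi
  rw [e, e']
  linear_combination X.th u v * this

theorem gap_line {u v : ℤ × ℤ} (h : Basis u v) (k : ℤ) : 0 ≤ X.gap u v (v + k • u) := by
  have := X.tw h k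
  unfold gap tau
  rw [rv_add, rv_smul, phi_add, phi_smul, X.phi_u h, X.phi_v h]
  rw [add_comm (X.th u v)]
  linarith

theorem gap_u {u v : ℤ × ℤ} (h : Basis u v) : X.gap u v u = 0 := by
  unfold gap tau
  rw [X.phi_u h, X.two_cosh h]; ring

theorem gap_pos {u v : ℤ × ℤ} (h : Basis u v) (p q : ℤ) (hq : 0 < q) (hc : IsCoprime p q) :
    0 ≤ X.gap u v (p • u + q • v) := by
  have h0 : 0 ≤ p % q := Int.emod_nonneg _ hq.ne'
  have h1 : p % q < q := Int.emod_lt_of_pos _ hq
  have h2 := Int.emod_add_mul_ediv p q
  set r := p % q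
  set k := p / q
  rcases h0.eq_or_lt with hr | hr
  · -- q = 1
    have hp : p = q * k := by omega
    have : q = 1 := by
      rw [hp] at hc
      have := (IsCoprime.of_mul_left_left hc)
      rw [isCoprime_self] at this
      rcases Int.isUnit_iff.1 this with h | h <;> omega
    subst this
    have := X.gap_line h p
    rw [add_comm, one_smul]; exact this
  · have hb1 := basis_shift h k
    have hb : Basis (v + k • u) (v + (k + 1) • u) := by
      have := basis_add_right (basis_swap hb1)
      rwa [show v + k • u + u = v + (k + 1) • u by module] at this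
    have s := X.gap_step u v hb (X.gap_line h k) (X.gap_line h (k + 1))
    rw [show v + k • u - (v + (k + 1) • u) = -u by module] at s
    have hu : X.gap u v (-u) = 0 := by
      have := X.gap_u h
      unfold gap at *
      rw [X.neg, X.tau_neg]; exact this
    rw [hu] at s
    have g1 := X.gap_line h k
    have g2 := X.gap_line h (k + 1)
    obtain ⟨m, hm⟩ := Int.eq_ofNat_of_zero_le (show 0 ≤ q - r by omega)
    obtain ⟨n, hn⟩ := Int.eq_ofNat_of_zero_le hr.le
    have hcop : Nat.Coprime m n := by
      rw [← Nat.isCoprime_iff_coprime]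
      have hm' : (m : ℤ) = q - r := by simpa using hm.symm
      have hn' : (n : ℤ) = r := by simpa using hn.symm
      rw [hm', hn']
      obtain ⟨a, b, hab⟩ := hc
      exact ⟨a * k + b, a + a * k + b, by rw [← hab]; linear_combination a * h2⟩
    have := X.gap_tree u v (m + n) _ _ hb g1 g2 (by linarith) (by linarith) m n
      (by omega) (by omega) le_rfl hcop
    have e : (m : ℤ) • (v + k • u) + (n : ℤ) • (v + (k + 1) • u) = p • u + q • v := by
      have hm' : (m : ℤ) = q - r := by simpa using hm.symm
      have hn' : (n : ℤ) = r := by simpa using hn.symm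
      rw [hm', hn', ← h2]
      module
    rwa [e] at this

/-- Supporting functionals: `|phi| ≤ len` on all primitive vectors. -/
theorem phi_le {u v : ℤ × ℤ} (h : Basis u v) {w w' : ℤ × ℤ} (hw : Basis w w') :
    |X.phi u v (rv w)| ≤ X.len w := by
  apply X.le_len hw
  have hd : (det u v) * det u v = 1 := by
    rcases h with h | h <;> rw [h] <;> norm_num
  have hwe : w = (det w v * det u v) • u + (det u w * det u v) • v := by
    have h1 : (det w v * det u v) * u.1 + (det u w * det u v) * v.1 = w.1 := by
      unfold det at *; linear_combination w.1 * hd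
    have h2 : (det w v * det u v) * u.2 + (det u w * det u v) * v.2 = w.2 := by
      unfold det at *; linear_combination w.2 * hd
    ext <;> simp [h1, h2]
  set p := det w v * det u v
  set q := det u w * det u v
  have hc : IsCoprime p q := by
    have hw2 : det w w' = p * det u w' + q * det v w' := by
      conv_lhs => rw [hwe]
      unfold det; simp; ring
    rcases hw with hw | hw
    · exact ⟨det u w', det v w', by rw [← hw, hw2]; ring⟩
    · exact ⟨-det u w', -det v w', by linear_combination hw2 - hw⟩
  have key : 0 ≤ X.gap u v w := by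
    rcases lt_trichotomy q 0 with hq | hq | hq
    · have := X.gap_pos h (-p) (-q) (by omega) hc.neg_neg
      rw [show (-p) • u + (-q) • v = -(p • u + q • v) by module, ← hwe] at this
      unfold gap at *
      rwa [X.neg, X.tau_neg] at this
    · rw [hq] at hc
      have := isCoprime_zero_right.1 hc
      rcases Int.isUnit_iff.1 this with hp | hp
      · rw [hwe, hq, hp]; simp; rw [X.gap_u h]
      · rw [hwe, hq, hp]; simp
        have := X.gap_u h
        unfold gap at *
        rw [X.neg, X.tau_neg]; linarith
    · have := X.gap_pos h p q hq hc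
      rwa [← hwe] at this
  unfold gap tau at key
  linarith

end Tor

end Run7.h568.HB
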