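import Pool.Agent.Run7.h568.HB.B

open Real

noncomputable section

namespace Run7.h568.HB

abbrev e1 : ℤ × ℤ := (1, 0)
abbrev e2 : ℤ × ℤ := (0, 1)

theorem basis_e : Basis e1 e2 := by left; simp [det]
theorem basis_e' : Basis e2 e1 := by right; simp [det]

instance : Nonempty {uv : (ℤ × ℤ) × (ℤ × ℤ) // Basis uv.1 uv.2} := ⟨⟨(e1, e2), basis_e⟩⟩

namespace Tor

variable (X : Tor)

/-- The length of measured laminations: the norm on `ℝ²` extending the length of the curves. -/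
def N (x : ℝ × ℝ) : ℝ :=
  ⨆ i : {uv : (ℤ × ℤ) × (ℤ × ℤ) // Basis uv.1 uv.2}, |X.phi i.1.1 i.1.2 x|

/-- Bound for the norm. -/
def K : ℝ := X.len e1 + X.len e2

theorem K_pos : 0 < X.K := add_pos (X.len_pos basis_e) (X.len_pos basis_e')

theorem phi_bound (i : {uv : (ℤ × ℤ) × (ℤ × ℤ) // Basis uv.1 uv.2}) (x : ℝ × ℝ) :
    |X.phi i.1.1 i.1.2 x| ≤ X.K * ‖x‖ := by
  have hx : x = x.1 • rv e1 + x.2 • rv e2 := by
    unfold rv; ext <;> simp
  have h1 := X.phi_le i.2 basis_e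
  have h2 := X.phi_le i.2 basis_e'
  have n1 : |x.1| ≤ ‖x‖ := by rw [← Real.norm_eq_abs]; exact norm_fst_le x
  have n2 : |x.2| ≤ ‖x‖ := by rw [← Real.norm_eq_abs]; exact norm_snd_le x
  calc |X.phi i.1.1 i.1.2 x| = |x.1 * X.phi i.1.1 i.1.2 (rv e1) + x.2 * X.phi i.1.1 i.1.2 (rv e2)| := by
        conv_lhs => rw [hx]
        rw [phi_add, phi_smul, phi_smul]
    _ ≤ |x.1| * |X.phi i.1.1 i.1.2 (rv e1)| + |x.2| * |X.phi i.1.1 i.1.2 (rv e2)| := by
        rw [← abs_mul, ← abs_mul]; exact abs_add_le _ _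
    _ ≤ ‖x‖ * X.len e1 + ‖x‖ * X.len e2 := by gcongr
    _ = X.K * ‖x‖ := by unfold K; ring

theorem bdd (x : ℝ × ℝ) : BddAbove (Set.range fun i :
    {uv : (ℤ × ℤ) × (ℤ × ℤ) // Basis uv.1 uv.2} => |X.phi i.1.1 i.1.2 x|) := by
  refine ⟨X.K * ‖x‖, ?_⟩
  rintro _ ⟨i, rfl⟩
  exact X.phi_bound i x

theorem le_N {u v : ℤ × ℤ} (h : Basis u v) (x : ℝ × ℝ) : |X.phi u v x| ≤ X.N x :=
  le_ciSup (X.bdd x) ⟨(u, v), h⟩

theorem N_nonneg (x : ℝ × ℝ) : 0 ≤ X.N x := le_trans (abs_nonneg _) (X.le_N basis_e x)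

theorem N_le (x : ℝ × ℝ) : X.N x ≤ X.K * ‖x‖ := ciSup_le fun i => X.phi_bound i x

theorem N_add (x y : ℝ × ℝ) : X.N (x + y) ≤ X.N x + X.N y := by
  refine ciSup_le fun i => ?_
  rw [phi_add]
  exact (abs_add_le _ _).trans (add_le_add (X.le_N i.2 x) (X.le_N i.2 y))

theorem N_smul (c : ℝ) (x : ℝ × ℝ) : X.N (c • x) = |c| * X.N x := by
  unfold N
  rw [Real.mul_iSup_of_nonneg (abs_nonneg c)]
  congr 1
  ext i
  rw [phi_smul, abs_mul]

theorem N_rv {w w' : ℤ × ℤ} (h : Basis w w') : X.N (rv w) = X.len w := by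
  apply le_antisymm
  · exact ciSup_le fun i => X.phi_le i.2 h
  · have := X.le_N h (rv w)
    rw [X.phi_u h, abs_of_pos (X.len_pos h)] at this
    exact this

theorem N_neg (x : ℝ × ℝ) : X.N (-x) = X.N x := by
  have := X.N_smul (-1) x
  simpa using this

theorem N_lip (x y : ℝ × ℝ) : |X.N x - X.N y| ≤ X.K * ‖x - y‖ := by
  have h1 := X.N_add (x - y) y
  have h2 := X.N_add (y - x) x
  rw [sub_add_cancel] at h1 h2
  have h3 := X.N_le (x - y)
  have h4 := X.N_le (y - x)
  rw [norm_sub_rev] at h4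
  rw [abs_le]; constructor <;> linarith

theorem N_cont : Continuous X.N := by
  have : LipschitzWith (Real.toNNReal X.K) X.N := by
    apply LipschitzWith.of_dist_le_mul
    intro x y
    rw [Real.dist_eq, dist_eq_norm, Real.coe_toNNReal _ X.K_pos.le]
    exact X.N_lip x y
  exact this.continuous

/-- Two neighbours are not both short. -/
theorem prod_ge {u v : ℤ × ℤ} (h : Basis u v) : 8 ≤ X.t u * X.t v := by
  have h1 := X.edge u v h
  have h2 := X.vert u v h
  have h3 := X.big u v h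
  have h4 := X.big v u (basis_swap h)
  have h5 : X.t u ^ 2 + X.t v ^ 2 = X.t (u + v) * X.t (u - v) := by
    have : X.t (u - v) = X.t u * X.t v - X.t (u + v) := by linarith
    rw [this]; linarith
  have h6 : 4 * (X.t u ^ 2 + X.t v ^ 2) ≤ (X.t u * X.t v) ^ 2 := by
    rw [h5, ← h1]; nlinarith [sq_nonneg (X.t (u + v) - X.t (u - v))]
  by_contra hc
  push Not at hc
  nlinarith [sq_nonneg (X.t u - X.t v), mul_pos (show 0 < X.t u by linarith) (show 0 < X.t v by linarith)]

/-- A basis whose first vector is given. -/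
theorem exists_basis {a b : ℤ} (h : IsCoprime a b) : ∃ v, Basis (a, b) v := by
  obtain ⟨s, t, hst⟩ := h
  refine ⟨(-t, s), ?_⟩
  left; unfold det; simp; linear_combination hst

/-- Small neighbours near a direction. -/
theorem exists_near (x : ℝ × ℝ) (hx : x.2 ≠ 0) (ε : ℝ) (hε : 0 < ε) :
    ∃ u v : ℤ × ℤ, Basis u v ∧ |detR x (rv u)| < ε ∧ (0 < |detR x (rv u)| → |detR x (rv v)| < ε) := by
  obtain ⟨n, hn⟩ := exists_nat_gt (|x.2| / ε)
  have hn0 : 0 < n + 1 := Nat.succ_pos n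
  obtain ⟨q, hq1, hq2⟩ := Real.exists_rat_abs_sub_le_and_den_le (x.1 / x.2) hn0
  have hcop : IsCoprime q.num (q.den : ℤ) := by
    rw [Int.isCoprime_iff_gcd_eq_one]; exact q.reduced
  obtain ⟨v, hv⟩ := exists_basis hcop
  have hd : (0:ℝ) < q.den := by exact_mod_cast q.den_pos
  have hxa : 0 < |x.2| := abs_pos.2 hx
  have hsmall : |detR x (rv (q.num, (q.den : ℤ)))| < ε := by
    have e : detR x (rv (q.num, (q.den : ℤ))) = x.2 * q.den * (x.1 / x.2 - q) := by
      unfold detR rv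
      simp only [Int.cast_natCast]
      have : (q : ℝ) = q.num / q.den := by exact_mod_cast (Rat.num_div_den q).symm
      rw [this]; field_simp
    rw [e, abs_mul, abs_mul, abs_of_pos hd]
    calc |x.2| * q.den * |x.1 / x.2 - q| ≤ |x.2| * q.den * (1 / (((n + 1 : ℕ) + 1) * q.den)) := by
          gcongr
      _ = |x.2| / ((n + 1 : ℕ) + 1) := by field_simp
      _ < ε := by
          rw [div_lt_iff₀ hε] at hn
          rw [div_lt_iff₀ (by positivity)]
          push_cast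
          nlinarith
  set u : ℤ × ℤ := (q.num, (q.den : ℤ))
  set D := detR x (rv u)
  refine ⟨u, v + (- round (detR x (rv v) / D)) • u, basis_shift hv _, hsmall, fun hD => ?_⟩
  have hD' : D ≠ 0 := abs_pos.1 hD
  have e : detR x (rv (v + (- round (detR x (rv v) / D)) • u)) =
      D * (detR x (rv v) / D - round (detR x (rv v) / D)) := by
    rw [mul_sub, mul_div_cancel₀ _ hD']
    have : detR x (rv (v + (- round (detR x (rv v) / D)) • u)) =
        detR x (rv v) - D * round (detR x (rv v) / D) := by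
      rw [rv_add, rv_smul]
      simp only [D, detR, Prod.fst_add, Prod.snd_add, Prod.smul_fst, Prod.smul_snd, smul_eq_mul]
      push_cast; ring
    exact this
  rw [e, abs_mul]
  have := abs_sub_round (detR x (rv v) / D)
  nlinarith [abs_nonneg D]

end Tor

end Run7.h568.HB
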