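import Pool.Agent.Run7.h568.HB.C

open Real

noncomputable section

namespace Run7.h568.HB

theorem detR_decomp {x y : ℝ × ℝ} (h : detR x y = 1) (z : ℝ × ℝ) :
    z = detR z y • x + detR x z • y := by
  unfold detR at *
  ext
  · simp; linear_combination (-z.1) * h
  · simp; linear_combination (-z.2) * h

namespace Tor

variable (X : Tor)

theorem cosh_one_lt : cosh 1 < 3 := by
  have h := Real.exp_one_lt_d9
  have h2 : exp (-1) < 1 := by rw [Real.exp_lt_one_iff]; norm_num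
  rw [Real.cosh_eq]; linarith

theorem t_small {u v : ℤ × ℤ} (h : Basis u v) (hl : X.len u ≤ 1) : X.t u ≤ 2 * cosh (1 / 2) := by
  rw [← X.two_cosh h]
  have hp := X.len_pos h
  have : cosh (X.len u / 2) ≤ cosh (1 / 2) := by
    rw [Real.cosh_le_cosh, abs_of_pos (by linarith), abs_of_pos (by norm_num)]; linarith
  linarith

theorem not_both {u v : ℤ × ℤ} (h : Basis u v) (hu : X.len u ≤ 1) (hv : X.len v ≤ 1) : False := by
  have h1 := X.t_small h hu
  have h2 := X.t_small (basis_swap h) hv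
  have h3 := X.prod_ge h
  have h4 := X.big u v h
  have h5 : cosh 1 = 2 * cosh (1 / 2) ^ 2 - 1 := by
    have := Real.cosh_two_mul (1 / 2)
    rw [show (2:ℝ) * (1 / 2) = 1 by norm_num] at this
    have h6 := Real.cosh_sq (1 / 2)
    linarith
  have h6 := cosh_one_lt
  have h7 : X.t u * X.t v ≤ (2 * cosh (1 / 2)) * (2 * cosh (1 / 2)) := by
    apply mul_le_mul h1 h2 (by linarith [X.big v u (basis_swap h)])
    linarith
  nlinarith

theorem N_pos {x : ℝ × ℝ} (hx : x ≠ 0) : 0 < X.N x := by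
  by_contra hc
  have h0 : X.N x = 0 := le_antisymm (not_lt.1 hc) (X.N_nonneg x)
  by_cases hx2 : x.2 = 0
  · have hx1 : x.1 ≠ 0 := fun h => hx (Prod.ext h hx2)
    have : x = x.1 • rv e1 := by
      unfold rv; ext <;> simp [hx2]
    rw [this, N_smul, X.N_rv basis_e] at h0
    have := mul_pos (abs_pos.2 hx1) (X.len_pos basis_e)
    linarith
  · set y : ℝ × ℝ := (-1 / x.2, 0)
    have hxy : detR x y = 1 := by
      unfold detR; simp only [y]; field_simp; ring
    have hy := X.N_nonneg y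
    have bound : ∀ z, X.N z ≤ |detR x z| * X.N y := by
      intro z
      conv_lhs => rw [detR_decomp hxy z]
      refine (X.N_add _ _).trans ?_
      rw [N_smul, N_smul, h0]; simp
    obtain ⟨u, v, huv, hu, hv⟩ := exists_near x hx2 (1 / (X.N y + 1)) (by positivity)
    have small : ∀ z, |detR x z| < 1 / (X.N y + 1) → X.N z ≤ 1 := by
      intro z hz
      refine (bound z).trans ?_
      have : |detR x z| * X.N y ≤ 1 / (X.N y + 1) * X.N y := by gcongr
      refine this.trans ?_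
      rw [div_mul_eq_mul_div, div_le_one (by positivity)]; linarith
    by_cases hD : |detR x (rv u)| = 0
    · have := bound (rv u)
      rw [hD, X.N_rv huv] at this
      have := X.len_pos huv
      linarith
    · have hD' : 0 < |detR x (rv u)| := lt_of_le_of_ne (abs_nonneg _) (Ne.symm hD)
      have a1 := small _ hu
      have a2 := small _ (hv hD')
      rw [X.N_rv huv] at a1
      rw [X.N_rv (basis_swap huv)] at a2
      exact X.not_both huv a1 a2

theorem exists_lower : ∃ c : ℝ, 0 < c ∧ ∀ x, c * ‖x‖ ≤ X.N x := by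
  have hK : IsCompact (Metric.sphere (0 : ℝ × ℝ) 1) := isCompact_sphere 0 1
  have hne : (Metric.sphere (0 : ℝ × ℝ) 1).Nonempty := ⟨(1, 0), by simp [Prod.norm_def]⟩
  obtain ⟨x0, hx0, hmin⟩ := hK.exists_isMinOn hne X.N_cont.continuousOn
  have hx0' : x0 ≠ 0 := by
    rintro rfl
    simp at hx0
  refine ⟨X.N x0, X.N_pos hx0', fun x => ?_⟩
  by_cases hx : x = 0
  · subst hx; simp; exact X.N_nonneg 0
  · have hn : 0 < ‖x‖ := norm_pos_iff.2 hx
    have hm : X.N x0 ≤ X.N (‖x‖⁻¹ • x) := hmin (by simp [norm_smul, hn.ne'])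
    rw [N_smul, abs_of_pos (inv_pos.2 hn)] at hm
    calc X.N x0 * ‖x‖ ≤ ‖x‖⁻¹ * X.N x * ‖x‖ := by gcongr
      _ = X.N x := by field_simp

theorem len_le (u v : ℤ × ℤ) (h : Basis u v) : X.len u ≤ 2 * X.t u := by
  rw [← X.two_cosh h, Real.cosh_eq]
  have h1 := Real.add_one_le_exp (X.len u / 2)
  have h2 := Real.exp_pos (-(X.len u / 2))
  linarith

theorem finite_short (R : ℝ) : {w : ℤ × ℤ | (∃ w', Basis w w') ∧ X.t w ≤ R}.Finite := by
  obtain ⟨c, hc, hN⟩ := X.exists_lower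
  obtain ⟨m, hm⟩ := exists_nat_gt (2 * R / c)
  refine Set.Finite.subset ((Set.finite_Icc (-(m:ℤ)) m).prod (Set.finite_Icc (-(m:ℤ)) m)) ?_
  rintro w ⟨⟨w', hw⟩, hR⟩
  have h1 := hN (rv w)
  rw [X.N_rv hw] at h1
  have h2 := X.len_le w w' hw
  have h3 : ‖rv w‖ < m := by
    rw [div_lt_iff₀ hc] at hm; nlinarith
  have n1 : |((w.1 : ℤ) : ℝ)| ≤ ‖rv w‖ := by
    rw [← Real.norm_eq_abs]; exact norm_fst_le (rv w)
  have n2 : |((w.2 : ℤ) : ℝ)| ≤ ‖rv w‖ := by
    rw [← Real.norm_eq_abs]; exact norm_snd_le (rv w)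
  have m1 := abs_le.1 (n1.trans h3.le)
  have m2 := abs_le.1 (n2.trans h3.le)
  refine ⟨⟨?_, ?_⟩, ⟨?_, ?_⟩⟩
  · exact_mod_cast m1.1
  · exact_mod_cast m1.2
  · exact_mod_cast m2.1
  · exact_mod_cast m2.2

/-- The systole has trace at most 3. -/
theorem exists_short : ∃ u v, Basis u v ∧ X.t u ≤ 3 := by
  obtain ⟨u, ⟨⟨v0, hv0⟩, hu1⟩, humin⟩ := Set.exists_min_image _ X.t (X.finite_short (X.t e1))
    ⟨e1, ⟨e2, basis_e⟩, le_rfl⟩
  have hu : ∀ w w', Basis w w' → X.t u ≤ X.t w := by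
    intro w w' hw
    by_cases h : X.t w ≤ X.t e1
    · exact humin w ⟨⟨w', hw⟩, h⟩
    · linarith
  obtain ⟨v, hvm, hvmin⟩ := Set.exists_min_image
    ({w : ℤ × ℤ | (∃ w', Basis w w') ∧ X.t w ≤ X.t v0} ∩ {w | Basis u w}) X.t
    ((X.finite_short (X.t v0)).inter_of_left _) ⟨v0, ⟨⟨⟨u, basis_swap hv0⟩, le_rfl⟩, hv0⟩⟩
  have huv : Basis u v := hvm.2
  have hv : ∀ w, Basis u w → X.t v ≤ X.t w := by
    intro w hw
    by_cases h : X.t w ≤ X.t v0
    · exact hvmin w ⟨⟨⟨u, basis_swap hw⟩, h⟩, hw⟩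
    · have := hvmin v0 ⟨⟨⟨u, basis_swap hv0⟩, le_rfl⟩, hv0⟩
      linarith
  refine ⟨u, v, huv, ?_⟩
  have b1 : Basis u (u + v) := basis_add_right huv
  have b2 : Basis u (u - v) := by
    unfold Basis det at *
    simp only [Prod.fst_sub, Prod.snd_sub]
    rcases huv with h | h
    · right; linear_combination -h
    · left; linear_combination -h
  have r1 := hv _ b1
  have r2 := hv _ b2
  have r3 := hu v u (basis_swap huv)
  have r4 := X.edge u v huv
  have r5 := X.vert u v huv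
  have r6 := X.big u v huv
  set x := X.t u
  set y := X.t v
  set z := X.t (u + v)
  set z' := X.t (u - v)
  have r7 : z * z' = x ^ 2 + y ^ 2 := by
    have : z' = x * y - z := by linarith
    rw [this]; linarith
  have r8 : 0 ≤ (z - y) * (z' - y) := mul_nonneg (by linarith) (by linarith)
  have r9 : (x - 2) * y ^ 2 ≤ x ^ 2 := by nlinarith
  by_contra hc
  push Not at hc
  have r10 : x ^ 2 ≤ y ^ 2 := by nlinarith
  nlinarith [mul_pos (show 0 < x - 3 by linarith) (show 0 < y ^ 2 by nlinarith)]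

end Tor

end Run7.h568.HB
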