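import Pool.Agent.Run7.h568.HB.D

open Real Filter Topology

noncomputable section

namespace Run7.h568.HB

namespace Tor

/-- The ratios of the lengths of the simple closed curves. -/
def ratios (X Y : Tor) : Set ℝ := {r | ∃ w w', Basis w w' ∧ r = Y.len w / X.len w}

/-- The Thurston distance. -/
def dTh (X Y : Tor) : ℝ := log (sSup (ratios X Y))

theorem norm_rv_ge {u v : ℤ × ℤ} (h : Basis u v) : 1 ≤ ‖rv u‖ := by
  by_contra hc
  push Not at hc
  have n1 : |((u.1 : ℤ) : ℝ)| ≤ ‖rv u‖ := by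
    rw [← Real.norm_eq_abs]; exact norm_fst_le (rv u)
  have n2 : |((u.2 : ℤ) : ℝ)| ≤ ‖rv u‖ := by
    rw [← Real.norm_eq_abs]; exact norm_snd_le (rv u)
  have m1 : |u.1| < 1 := by exact_mod_cast n1.trans_lt hc
  have m2 : |u.2| < 1 := by exact_mod_cast n2.trans_lt hc
  rw [Int.abs_lt_one_iff] at m1 m2
  unfold Basis det at h
  rw [m1, m2] at h
  simp at h

theorem ratios_bdd (X Y : Tor) : BddAbove (ratios X Y) := by
  obtain ⟨c, hc, hN⟩ := X.exists_lower
  refine ⟨Y.K / c, ?_⟩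
  rintro r ⟨w, w', hw, rfl⟩
  have h1 := hN (rv w)
  have h2 := Y.N_le (rv w)
  rw [X.N_rv hw] at h1
  rw [Y.N_rv hw] at h2
  have h3 := X.len_pos hw
  have h4 := norm_rv_ge hw
  rw [div_le_div_iff₀ h3 hc]
  have := Y.K_pos
  nlinarith [mul_le_mul_of_nonneg_left h1 this.le, mul_le_mul_of_nonneg_right h2 hc.le]

theorem le_S (X Y : Tor) {w w' : ℤ × ℤ} (h : Basis w w') :
    Y.len w ≤ sSup (ratios X Y) * X.len w := by
  have h3 := X.len_pos h
  rw [← div_le_iff₀ h3]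
  exact le_csSup (ratios_bdd X Y) ⟨w, w', h, rfl⟩

theorem S_pos (X Y : Tor) : 0 < sSup (ratios X Y) := by
  have h := le_S X Y basis_e
  have h1 := X.len_pos basis_e
  have h2 := Y.len_pos basis_e
  by_contra hc
  push Not at hc
  nlinarith

theorem S_le (X Y : Tor) {s : ℝ} (h : ∀ w w', Basis w w' → Y.len w ≤ s * X.len w) :
    sSup (ratios X Y) ≤ s := by
  refine csSup_le ⟨Y.len e1 / X.len e1, e1, e2, basis_e, rfl⟩ ?_
  rintro r ⟨w, w', hw, rfl⟩
  rw [div_le_iff₀ (X.len_pos hw)]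
  exact h w w' hw

theorem N_upper (X : Tor) {m y : ℝ × ℝ} (h : detR m y = 1) (z : ℝ × ℝ) :
    X.N z ≤ |detR z y| * X.N m + |detR m z| * X.N y := by
  conv_lhs => rw [detR_decomp h z]
  refine (X.N_add _ _).trans ?_
  rw [N_smul, N_smul]

theorem N_lower1 (X : Tor) {m y : ℝ × ℝ} (h : detR m y = 1) (z : ℝ × ℝ) :
    |detR m z| * X.N y ≤ X.N z + |detR z y| * X.N m := by
  have e : detR m z • y = z + (-detR z y) • m := by
    conv_rhs => rw [detR_decomp h z]
    have : detR (detR z y • m + detR m z • y) y = detR z y := by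
      rw [← detR_decomp h z]
    rw [this]; module
  rw [← N_smul, e]
  refine (X.N_add _ _).trans ?_
  rw [N_smul, abs_neg]

theorem N_lower2 (X : Tor) {m y : ℝ × ℝ} (h : detR m y = 1) (z : ℝ × ℝ) :
    |detR z y| * X.N m ≤ X.N z + |detR m z| * X.N y := by
  have e : detR z y • m = z + (-detR m z) • y := by
    conv_rhs => rw [detR_decomp h z]
    have : detR m (detR z y • m + detR m z • y) = detR m z := by
      rw [← detR_decomp h z]
    rw [this]; module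
  rw [← N_smul, e]
  refine (X.N_add _ _).trans ?_
  rw [N_smul, abs_neg]

theorem norm_decomp {m y : ℝ × ℝ} (h : detR m y = 1) (z : ℝ × ℝ) :
    ‖z‖ ≤ |detR z y| * ‖m‖ + |detR m z| * ‖y‖ := by
  conv_lhs => rw [detR_decomp h z]
  refine (norm_add_le _ _).trans ?_
  rw [norm_smul, norm_smul, Real.norm_eq_abs, Real.norm_eq_abs]

theorem detR_le (z y : ℝ × ℝ) : |detR z y| ≤ 2 * ‖z‖ * ‖y‖ := by
  have n1 : |z.1| ≤ ‖z‖ := by rw [← Real.norm_eq_abs]; exact norm_fst_le z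
  have n2 : |z.2| ≤ ‖z‖ := by rw [← Real.norm_eq_abs]; exact norm_snd_le z
  have n3 : |y.1| ≤ ‖y‖ := by rw [← Real.norm_eq_abs]; exact norm_fst_le y
  have n4 : |y.2| ≤ ‖y‖ := by rw [← Real.norm_eq_abs]; exact norm_snd_le y
  unfold detR
  calc |z.1 * y.2 - z.2 * y.1| ≤ |z.1| * |y.2| + |z.2| * |y.1| := by
        rw [← abs_mul, ← abs_mul]; exact abs_sub _ _
    _ ≤ ‖z‖ * ‖y‖ + ‖z‖ * ‖y‖ := by gcongr
    _ = _ := by ring

theorem K_eq (X : Tor) : X.K = X.N (rv e1) + X.N (rv e2) := by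
  rw [X.N_rv basis_e, X.N_rv basis_e']; rfl

/-- Data of a diverging sequence: short curves `u n` with direction converging to `m`. -/
structure Conv (X : ℕ → Tor) (m : ℝ × ℝ) where
  hK : Tendsto (fun n => (X n).K) atTop atTop
  u : ℕ → ℤ × ℤ
  u' : ℕ → ℤ × ℤ
  hb : ∀ n, Basis (u n) (u' n)
  C : ℝ
  hC : ∀ n, (X n).len (u n) ≤ C
  y : ℝ × ℝ
  hy : detR m y = 1
  hdir : Tendsto (fun n => |detR m (rv (u n))| / ‖rv (u n)‖) atTop (𝓝 0)

variable {X : ℕ → Tor} {m : ℝ × ℝ} (c : Conv X m)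
include c

theorem Conv.C_pos : 0 < c.C := lt_of_lt_of_le ((X 0).len_pos (c.hb 0)) (c.hC 0)

theorem Conv.m_pos : 0 < ‖m‖ := by
  rw [norm_pos_iff]
  rintro rfl
  have := c.hy
  simp [detR] at this

/-- `m` becomes short. -/
theorem Conv.short (η : ℝ) (hη : 0 < η) : ∀ᶠ n in atTop, (X n).N m ≤ η * (X n).K := by
  have hm := c.m_pos
  have hy0 : 0 ≤ ‖c.y‖ := norm_nonneg _
  have h1 : ∀ᶠ n in atTop, |detR m (rv (c.u n))| / ‖rv (c.u n)‖ <
      min (1 / (2 * (‖c.y‖ + 1))) (η / (4 * ‖m‖ * (‖c.y‖ + 1))) :=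
    c.hdir.eventually_lt_const (by positivity)
  have h2 : ∀ᶠ n in atTop, 4 * ‖m‖ * c.C / η ≤ (X n).K := c.hK.eventually_ge_atTop _
  filter_upwards [h1, h2] with n g1 g2
  set z := rv (c.u n)
  have hz1 : 1 ≤ ‖z‖ := norm_rv_ge (c.hb n)
  have hz : 0 < ‖z‖ := by linarith
  obtain ⟨g3, g4⟩ := lt_min_iff.1 g1
  rw [div_lt_iff₀ hz] at g3 g4
  have hK := (X n).K_pos
  have i1 := norm_decomp c.hy z
  have i2 := (X n).N_lower2 c.hy z
  have i3 := (X n).N_le c.y
  have i4 := c.hC n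
  rw [← (X n).N_rv (c.hb n)] at i4
  have i5 := (X n).N_nonneg m
  -- |det z y| ‖m‖ ≥ ‖z‖ / 2
  have j1 : |detR m z| * ‖c.y‖ ≤ ‖z‖ / 2 := by
    have : |detR m z| * ‖c.y‖ ≤ (1 / (2 * (‖c.y‖ + 1)) * ‖z‖) * ‖c.y‖ := by gcongr
    refine this.trans ?_
    rw [div_mul_eq_mul_div, div_mul_eq_mul_div, div_le_iff₀ (by positivity)]
    nlinarith
  have j2 : ‖z‖ / 2 ≤ |detR z c.y| * ‖m‖ := by linarith
  have j3 : |detR m z| * (X n).N c.y ≤ η / (4 * ‖m‖) * ‖z‖ * (X n).K := by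
    calc |detR m z| * (X n).N c.y ≤ (η / (4 * ‖m‖ * (‖c.y‖ + 1)) * ‖z‖) * ((X n).K * (‖c.y‖ + 1)) := by
          exact mul_le_mul g4.le (i3.trans (mul_le_mul_of_nonneg_left (by linarith) hK.le))
            ((X n).N_nonneg _) (by positivity)
      _ = η / (4 * ‖m‖) * ‖z‖ * (X n).K := by field_simp
  have j4 : c.C ≤ η / (4 * ‖m‖) * ‖z‖ * (X n).K := by
    rw [div_le_iff₀ hη] at g2
    have : c.C ≤ η / (4 * ‖m‖) * (X n).K := by
      rw [div_mul_eq_mul_div, le_div_iff₀ (by positivity)]; linarith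
    refine this.trans ?_
    have : 0 ≤ η / (4 * ‖m‖) * (X n).K := by positivity
    nlinarith
  have j5 : |detR z c.y| * (X n).N m ≤ η / (2 * ‖m‖) * ‖z‖ * (X n).K := by
    have : η / (2 * ‖m‖) * ‖z‖ * (X n).K = η / (4 * ‖m‖) * ‖z‖ * (X n).K + η / (4 * ‖m‖) * ‖z‖ * (X n).K := by
      field_simp; ring
    rw [this]; linarith
  have j6 : ‖z‖ / 2 * (X n).N m ≤ η / 2 * ‖z‖ * (X n).K := by
    calc ‖z‖ / 2 * (X n).N m ≤ |detR z c.y| * ‖m‖ * (X n).N m := by gcongr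
      _ = (|detR z c.y| * (X n).N m) * ‖m‖ := by ring
      _ ≤ (η / (2 * ‖m‖) * ‖z‖ * (X n).K) * ‖m‖ := by gcongr
      _ = _ := by field_simp
  have : ‖z‖ * ((X n).N m) ≤ ‖z‖ * (η * (X n).K) := by linarith
  exact le_of_mul_le_mul_left this hz

/-- The complement stays long. -/
theorem Conv.long : ∃ c0 : ℝ, 0 < c0 ∧ ∀ᶠ n in atTop, c0 * (X n).K ≤ (X n).N c.y := by
  set a1 := |detR (rv e1) c.y| + |detR (rv e2) c.y|
  set a2 := |detR m (rv e1)| + |detR m (rv e2)|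
  have ha1 : 0 ≤ a1 := by positivity
  have ha2 : 0 ≤ a2 := by positivity
  refine ⟨1 / (2 * (a2 + 1)), by positivity, ?_⟩
  filter_upwards [c.short (1 / (2 * (a1 + 1))) (by positivity)] with n h
  have hK := (X n).K_pos
  have i1 := (X n).N_upper c.hy (rv e1)
  have i2 := (X n).N_upper c.hy (rv e2)
  have i3 := (X n).K_eq
  have i4 := (X n).N_nonneg c.y
  have i5 : (X n).K ≤ a1 * (X n).N m + a2 * (X n).N c.y := by
    rw [i3]; simp only [a1, a2]; linarith
  have i6 : a1 * (X n).N m ≤ (X n).K / 2 := by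
    have : a1 * (X n).N m ≤ a1 * (1 / (2 * (a1 + 1)) * (X n).K) := by gcongr
    refine this.trans ?_
    rw [div_mul_eq_mul_div, mul_div_assoc', div_le_iff₀ (by positivity)]
    nlinarith
  rw [div_mul_eq_mul_div, div_le_iff₀ (by positivity)]
  nlinarith

theorem Conv.side (Z Z' : Tor) (ρ : ℝ) (hρ : Z.N m < ρ * Z'.N m) :
    ∀ᶠ n in atTop, sSup (ratios (X n) Z) ≤ ρ * sSup (ratios (X n) Z') := by
  have hm := c.m_pos
  have hm0 : m ≠ 0 := norm_pos_iff.1 hm
  have hZ'm := Z'.N_pos hm0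
  have hρ0 : 0 < ρ := by
    by_contra hc
    push Not at hc
    have := Z.N_nonneg m
    nlinarith
  have hCp := c.C_pos
  set g := ρ * Z'.N m - Z.N m with hg
  have hg0 : 0 < g := by linarith
  set H := ρ * Z'.N c.y + Z.N c.y with hH
  have hH0 : 0 ≤ H := by
    have := Z.N_nonneg c.y
    have := Z'.N_nonneg c.y
    positivity
  have hy0 : 0 ≤ ‖c.y‖ := norm_nonneg _
  set δ := min (1 / (2 * (‖c.y‖ + 1))) (g / (2 * ‖m‖ * (H + 1))) with hδ
  have hδ0 : 0 < δ := by positivity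
  obtain ⟨c0, hc0, hlong⟩ := c.long
  obtain ⟨cZ, hcZ, hlow⟩ := Z'.exists_lower
  have hshort := c.short (δ * c0 / (4 * (‖c.y‖ + 1))) (by positivity)
  have hbig : ∀ᶠ n in atTop, Z.K / (ρ * (cZ / c.C) * (δ * c0 / 2)) ≤ (X n).K :=
    c.hK.eventually_ge_atTop _
  filter_upwards [hlong, hshort, hbig] with n h1 h2 h3
  have hK := (X n).K_pos
  have hS := S_pos (X n) Z'
  have hSge : cZ / c.C ≤ sSup (ratios (X n) Z') := by
    have k1 := le_S (X n) Z' (c.hb n)
    have k2 := hlow (rv (c.u n))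
    rw [Z'.N_rv (c.hb n)] at k2
    have k3 := norm_rv_ge (c.hb n)
    have k4 := c.hC n
    rw [div_le_iff₀ hCp]
    nlinarith
  apply S_le
  intro w w' hw
  set z := rv w with hz
  have hz1 : 1 ≤ ‖z‖ := norm_rv_ge hw
  have hzp : 0 < ‖z‖ := by linarith
  rw [← Z.N_rv hw, ← (X n).N_rv hw]
  by_cases hcase : |detR m z| ≤ δ * ‖z‖
  · have hd1 : δ ≤ 1 / (2 * (‖c.y‖ + 1)) := min_le_left _ _
    have hd2 : δ ≤ g / (2 * ‖m‖ * (H + 1)) := min_le_right _ _
    have i1 := norm_decomp c.hy z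
    have j1 : |detR m z| * ‖c.y‖ ≤ ‖z‖ / 2 := by
      have : |detR m z| * ‖c.y‖ ≤ (1 / (2 * (‖c.y‖ + 1)) * ‖z‖) * ‖c.y‖ := by
        gcongr; exact hcase.trans (by gcongr)
      refine this.trans ?_
      rw [div_mul_eq_mul_div, div_mul_eq_mul_div, div_le_iff₀ (by positivity)]
      nlinarith
    have j2 : ‖z‖ / 2 ≤ |detR z c.y| * ‖m‖ := by linarith
    have j3 : |detR m z| * H ≤ g / (2 * ‖m‖) * ‖z‖ := by
      calc |detR m z| * H ≤ (g / (2 * ‖m‖ * (H + 1)) * ‖z‖) * (H + 1) := by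
            gcongr
            · exact hcase.trans (by gcongr)
            · linarith
        _ = g / (2 * ‖m‖) * ‖z‖ := by field_simp
    have j4 : g / (2 * ‖m‖) * ‖z‖ ≤ |detR z c.y| * g := by
      rw [div_mul_eq_mul_div, div_le_iff₀ (by positivity)]
      nlinarith
    have k1 := Z.N_upper c.hy z
    have k2 := Z'.N_lower2 c.hy z
    have k3 : Z.N z ≤ ρ * Z'.N z := by
      have k4 : ρ * (|detR z c.y| * Z'.N m) ≤ ρ * (Z'.N z + |detR m z| * Z'.N c.y) := by gcongr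
      have k5 : |detR m z| * H = ρ * (|detR m z| * Z'.N c.y) + |detR m z| * Z.N c.y := by
        rw [hH]; ring
      have k6 : |detR z c.y| * g = ρ * (|detR z c.y| * Z'.N m) - |detR z c.y| * Z.N m := by
        rw [hg]; ring
      linarith
    refine k3.trans ?_
    have k7 := le_S (X n) Z' hw
    rw [← Z'.N_rv hw, ← (X n).N_rv hw] at k7
    calc ρ * Z'.N z ≤ ρ * (sSup (ratios (X n) Z') * (X n).N z) := by gcongr
      _ = _ := by ring
  · push Not at hcase
    have i1 := (X n).N_lower1 c.hy z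
    have i2 := detR_le z c.y
    have i3 := (X n).N_nonneg m
    have l1 : δ * ‖z‖ * (c0 * (X n).K) ≤ |detR m z| * (X n).N c.y := by gcongr
    have l2 : |detR z c.y| * (X n).N m ≤ (2 * ‖z‖ * (‖c.y‖ + 1)) * (δ * c0 / (4 * (‖c.y‖ + 1)) * (X n).K) := by
      gcongr
      exact i2.trans (by gcongr; linarith)
    have l3 : (2 * ‖z‖ * (‖c.y‖ + 1)) * (δ * c0 / (4 * (‖c.y‖ + 1)) * (X n).K) =
        ‖z‖ * (δ * c0 / 2 * (X n).K) := by field_simp; ring
    have l4 : ‖z‖ * (δ * c0 / 2 * (X n).K) ≤ (X n).N z := by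
      have : δ * ‖z‖ * (c0 * (X n).K) = 2 * (‖z‖ * (δ * c0 / 2 * (X n).K)) := by ring
      linarith
    rw [div_le_iff₀ (by positivity)] at h3
    calc Z.N z ≤ Z.K * ‖z‖ := Z.N_le z
      _ ≤ ((X n).K * (ρ * (cZ / c.C) * (δ * c0 / 2))) * ‖z‖ := by gcongr
      _ = ρ * (cZ / c.C) * (‖z‖ * (δ * c0 / 2 * (X n).K)) := by ring
      _ ≤ ρ * sSup (ratios (X n) Z') * (X n).N z := by gcongr

theorem Conv.lim (Z Z' : Tor) :
    Tendsto (fun n => dTh (X n) Z - dTh (X n) Z') atTop (𝓝 (log (Z.N m / Z'.N m))) := by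
  have hm0 : m ≠ 0 := norm_pos_iff.1 c.m_pos
  have hZ := Z.N_pos hm0
  have hZ' := Z'.N_pos hm0
  have key : Tendsto (fun n => sSup (ratios (X n) Z) / sSup (ratios (X n) Z')) atTop
      (𝓝 (Z.N m / Z'.N m)) := by
    rw [tendsto_order]
    constructor
    · intro a ha
      by_cases ha0 : a ≤ 0
      · exact Eventually.of_forall fun n => lt_of_le_of_lt ha0 (div_pos (S_pos _ _) (S_pos _ _))
      · push Not at ha0
        obtain ⟨a', h1, h2⟩ := exists_between ha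
        have ha' : 0 < a' := ha0.trans h1
        have := c.side Z' Z a'⁻¹ (by
          rw [lt_div_iff₀ hZ'] at h2
          rw [inv_mul_eq_div, lt_div_iff₀ ha']; linarith)
        filter_upwards [this] with n hn
        have s1 := S_pos (X n) Z
        have s2 := S_pos (X n) Z'
        rw [lt_div_iff₀ s2]
        rw [inv_mul_eq_div, le_div_iff₀ ha'] at hn
        nlinarith
    · intro a ha
      obtain ⟨a', h1, h2⟩ := exists_between ha
      have := c.side Z Z' a' (by rwa [div_lt_iff₀ hZ'] at h1)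
      filter_upwards [this] with n hn
      have s2 := S_pos (X n) Z'
      rw [div_lt_iff₀ s2]
      nlinarith
  have := (Real.continuousAt_log (div_pos hZ hZ').ne').tendsto.comp key
  refine this.congr fun n => ?_
  simp only [Function.comp, dTh]
  rw [Real.log_div (S_pos _ _).ne' (S_pos _ _).ne']

end Tor

end Run7.h568.HB
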