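import Pool.Agent.Run7.h568.HB.F

open Real Filter Topology

noncomputable section

namespace Run7.h568.HB

theorem exists_compl {m : ℝ × ℝ} (hm : m ≠ 0) : ∃ y, detR m y = 1 := by
  have h : 0 < m.1 ^ 2 + m.2 ^ 2 := by
    by_contra hc
    push Not at hc
    have h1 : m.1 = 0 := by nlinarith [sq_nonneg m.1, sq_nonneg m.2]
    have h2 : m.2 = 0 := by nlinarith [sq_nonneg m.1, sq_nonneg m.2]
    exact hm (Prod.ext h1 h2)
  refine ⟨(-m.2 / (m.1 ^ 2 + m.2 ^ 2), m.1 / (m.1 ^ 2 + m.2 ^ 2)), ?_⟩
  unfold detR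
  simp only
  field_simp
  ring

namespace Tor

/-- The topology of pointwise convergence of the traces. -/
instance : TopologicalSpace Tor := TopologicalSpace.induced Tor.t inferInstance

theorem ext' {X Y : Tor} (h : X.t = Y.t) : X = Y := by
  cases X; cases Y; cases h; rfl

theorem emb : IsEmbedding Tor.t := ⟨⟨rfl⟩, fun _ _ h => ext' h⟩

theorem cont_t (w : ℤ × ℤ) : Continuous fun X : Tor => X.t w :=
  (continuous_apply w).comp emb.continuous

theorem cont_len {u v : ℤ × ℤ} (h : Basis u v) : Continuous fun X : Tor => X.len u := by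
  unfold len
  have hE : Continuous fun X : Tor => X.E u := by
    unfold E
    have := cont_t u
    fun_prop
  exact continuous_const.mul (hE.log fun X => by linarith [(X.E_spec h).1])

theorem cont_K : Continuous fun X : Tor => X.K :=
  (cont_len basis_e).add (cont_len basis_e')

theorem closed_range : IsClosed (Set.range Tor.t) := by
  have h : Set.range Tor.t = {f : ℤ × ℤ → ℝ | (∀ w, f (-w) = f w) ∧ (∀ u v, Basis u v → 2 ≤ f u) ∧
      (∀ u v, Basis u v → f (u + v) + f (u - v) = f u * f v) ∧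
      (∀ u v, Basis u v → f u ^ 2 + f v ^ 2 + f (u + v) ^ 2 = f u * f v * f (u + v)) ∧
      (∀ w, (∀ v, ¬ Basis w v) → f w = 0)} := by
    ext f
    constructor
    · rintro ⟨X, rfl⟩
      exact ⟨X.neg, fun u v h => (X.big u v h).le, X.edge, X.vert, X.triv⟩
    · rintro ⟨h1, h2, h3, h4, h5⟩
      refine ⟨⟨f, h1, fun u v h => ?_, h3, h4, h5⟩, rfl⟩
      refine lt_of_le_of_ne (h2 u v h) fun he => ?_
      have := h4 u v h
      rw [← he] at this
      nlinarith [sq_nonneg (f v - f (u + v))]
  rw [h]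
  simp only [Set.setOf_and, Set.setOf_forall]
  refine IsClosed.inter ?_ (IsClosed.inter ?_ (IsClosed.inter ?_ (IsClosed.inter ?_ ?_)))
  · exact isClosed_iInter fun w => isClosed_eq (continuous_apply _) (continuous_apply _)
  · exact isClosed_iInter fun u => isClosed_iInter fun v => isClosed_iInter fun _ =>
      isClosed_le continuous_const (continuous_apply _)
  · exact isClosed_iInter fun u => isClosed_iInter fun v => isClosed_iInter fun _ =>
      isClosed_eq (by fun_prop) (by fun_prop)
  · exact isClosed_iInter fun u => isClosed_iInter fun v => isClosed_iInter fun _ =>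
      isClosed_eq (by fun_prop) (by fun_prop)
  · exact isClosed_iInter fun w => isClosed_iInter fun _ =>
      isClosed_eq (continuous_apply _) continuous_const

theorem compact_K (R : ℝ) : IsCompact {X : Tor | X.K ≤ R} := by
  have hcl : IsClosedEmbedding Tor.t := ⟨emb, closed_range⟩
  have hpi : IsCompact (Set.pi Set.univ fun w : ℤ × ℤ =>
      Set.Icc (0:ℝ) (2 * cosh (R * ‖rv w‖ / 2))) :=
    isCompact_univ_pi fun w => isCompact_Icc
  have := hcl.isCompact_preimage hpi
  refine this.of_isClosed_subset (isClosed_le cont_K continuous_const) ?_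
  intro X hX
  simp only [Set.mem_setOf_eq] at hX
  simp only [Set.mem_preimage, Set.mem_pi, Set.mem_univ, true_imp_iff, Set.mem_Icc]
  intro w
  by_cases h : ∃ v, Basis w v
  · obtain ⟨v, hv⟩ := h
    refine ⟨by linarith [X.big w v hv], ?_⟩
    rw [← X.two_cosh hv]
    have h1 := X.len_pos hv
    have h2 : X.len w ≤ R * ‖rv w‖ := by
      rw [← X.N_rv hv]
      exact (X.N_le _).trans (by gcongr)
    have : cosh (X.len w / 2) ≤ cosh (R * ‖rv w‖ / 2) := by
      rw [Real.cosh_le_cosh, abs_of_pos (by linarith), abs_of_pos (by linarith)]; linarith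
    linarith
  · push Not at h
    rw [X.triv w h]
    exact ⟨le_rfl, by positivity⟩

theorem tendsto_K {X : ℕ → Tor} : Tendsto X atTop (cocompact Tor) ↔
    Tendsto (fun n => (X n).K) atTop atTop := by
  constructor
  · intro h
    rw [tendsto_atTop]
    intro R
    have := h ((compact_K R).compl_mem_cocompact)
    filter_upwards [this] with n hn
    have hn' : ¬ (X n).K ≤ R := hn
    exact (not_le.1 hn').le
  · intro h
    rw [hasBasis_cocompact.tendsto_right_iff]
    intro C hC
    obtain ⟨R, hR⟩ := (hC.image cont_K).bddAbove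
    filter_upwards [h.eventually_gt_atTop R] with n hn hnC
    have := hR ⟨X n, hnC, rfl⟩
    simp only at this
    linarith

/-- Every limit is given by a measured lamination. -/
theorem limits (b : Tor) (X : ℕ → Tor) (hX : Tendsto X atTop (cocompact Tor)) (ψ : Tor → ℝ)
    (hψ : ∀ Z, Tendsto (fun n => dTh (X n) Z - dTh (X n) b) atTop (𝓝 (ψ Z))) :
    ∃ m : ℝ × ℝ, m ≠ 0 ∧ ∀ Z, ψ Z = log (Z.N m / b.N m) := by
  have hK := tendsto_K.1 hX
  choose u v huv hu3 using fun n => (X n).exists_short
  have hmem : ∀ n, (‖rv (u n)‖⁻¹ • rv (u n)) ∈ Metric.sphere (0 : ℝ × ℝ) 1 := by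
    intro n
    have := norm_rv_ge (huv n)
    have h0 : ‖rv (u n)‖ ≠ 0 := by linarith
    simp [norm_smul, h0]
  obtain ⟨m, hm, φ, hφ, hlim⟩ := (isCompact_sphere (0 : ℝ × ℝ) 1).tendsto_subseq hmem
  have hm0 : m ≠ 0 := by
    rintro rfl
    simp at hm
  obtain ⟨y, hy⟩ := exists_compl hm0
  have hdc : Continuous fun x : ℝ × ℝ => |detR m x| := by unfold detR; fun_prop
  have c : Conv (fun n => X (φ n)) m :=
    { hK := hK.comp hφ.tendsto_atTop
      u := fun n => u (φ n)
      u' := fun n => v (φ n)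
      hb := fun n => huv (φ n)
      C := 6
      hC := fun n => by
        have := (X (φ n)).len_le _ _ (huv (φ n))
        linarith [hu3 (φ n)]
      y := y
      hy := hy
      hdir := by
        have h1 := (hdc.tendsto m).comp hlim
        have h2 : |detR m m| = 0 := by unfold detR; rw [abs_eq_zero]; ring
        rw [h2] at h1
        refine h1.congr fun n => ?_
        simp only [Function.comp]
        have h3 : 0 < ‖rv (u (φ n))‖ := by linarith [norm_rv_ge (huv (φ n))]
        have : detR m (‖rv (u (φ n))‖⁻¹ • rv (u (φ n))) = ‖rv (u (φ n))‖⁻¹ * detR m (rv (u (φ n))) := by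
          unfold detR; simp; ring
        rw [this, abs_mul, abs_of_pos (inv_pos.2 h3)]
        ring }
  exact ⟨m, hm0, fun Z => tendsto_nhds_unique ((hψ Z).comp hφ.tendsto_atTop) (c.lim Z b)⟩

/-- Coordinates in the basis `u`, `v`. -/
def co (u v w : ℤ × ℤ) : ℤ × ℤ := (det w v * det u v, det u w * det u v)

theorem co_add (u v a b : ℤ × ℤ) : co u v (a + b) = co u v a + co u v b := by
  unfold co det; ext <;> simp <;> ring

theorem co_neg (u v a : ℤ × ℤ) : co u v (-a) = -co u v a := by
  unfold co det; ext <;> simp <;> ring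

theorem co_sub (u v a b : ℤ × ℤ) : co u v (a - b) = co u v a - co u v b := by
  rw [sub_eq_add_neg, co_add, co_neg, ← sub_eq_add_neg]

theorem det_sq {u v : ℤ × ℤ} (h : Basis u v) : det u v * det u v = 1 := by
  rcases h with h | h <;> rw [h] <;> norm_num

theorem det_co {u v : ℤ × ℤ} (h : Basis u v) (a b : ℤ × ℤ) :
    det (co u v a) (co u v b) = det a b * det u v := by
  have hs := det_sq h
  have : det (co u v a) (co u v b) = (det u v * det u v) * (det a b * det u v) := by
    unfold co det; simp only; ring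
  rw [this, hs, one_mul]

theorem basis_co {u v : ℤ × ℤ} (h : Basis u v) (a b : ℤ × ℤ) :
    Basis (co u v a) (co u v b) ↔ Basis a b := by
  unfold Basis
  rw [det_co h]
  rcases h with h | h <;> rw [h] <;> constructor <;> intro h' <;> omega

theorem co_surj {u v : ℤ × ℤ} (h : Basis u v) (a : ℤ × ℤ) : ∃ b, co u v b = a := by
  have hs := det_sq h
  refine ⟨(a.1 * u.1 + a.2 * v.1, a.1 * u.2 + a.2 * v.2), ?_⟩
  unfold co det at *
  ext
  · simp only; linear_combination a.1 * hs
  · simp only; linear_combination a.2 * hs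

/-- Change of marking. -/
def act (X : Tor) {u v : ℤ × ℤ} (h : Basis u v) : Tor where
  t w := X.t (co u v w)
  neg w := by rw [co_neg, X.neg]
  big a b hab := X.big _ _ ((basis_co h a b).2 hab)
  edge a b hab := by rw [co_add, co_sub]; exact X.edge _ _ ((basis_co h a b).2 hab)
  vert a b hab := by rw [co_add]; exact X.vert _ _ ((basis_co h a b).2 hab)
  triv w hw := by
    apply X.triv
    intro v' hv'
    obtain ⟨b, rfl⟩ := co_surj h v'
    exact hw b ((basis_co h w b).1 hv')

theorem act_len (X : Tor) {u v : ℤ × ℤ} (h : Basis u v) (w : ℤ × ℤ) :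
    (X.act h).len w = X.len (co u v w) := rfl

theorem exists_dir {m : ℝ × ℝ} (hm : m ≠ 0) (ε R : ℝ) (hε : 0 < ε) :
    ∃ u v : ℤ × ℤ, Basis u v ∧ R ≤ ‖rv u‖ ∧ |detR m (rv u)| ≤ ε * ‖rv u‖ := by
  obtain ⟨u, v, huv, hu⟩ : ∃ u v : ℤ × ℤ, Basis u v ∧ |detR m (rv u)| ≤ ε / 2 := by
    by_cases h2 : m.2 = 0
    · refine ⟨e1, e2, basis_e, ?_⟩
      have : detR m (rv e1) = 0 := by unfold detR rv; simp [h2]
      rw [this]; simp; positivity
    · obtain ⟨u, v, h, h1, _⟩ := exists_near m h2 (ε / 2) (by positivity)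
      exact ⟨u, v, h, h1.le⟩
  obtain ⟨k, hk⟩ := exists_nat_ge (max (R + ‖rv v‖) (2 * (|detR m (rv v)| / ε + ‖rv v‖)))
  have hk1 := (le_max_left _ _).trans hk
  have hk2 := (le_max_right _ _).trans hk
  have hbs := basis_shift huv (k : ℤ)
  refine ⟨v + (k : ℤ) • u, u, basis_swap hbs, ?_⟩
  have hn : (k : ℝ) - ‖rv v‖ ≤ ‖rv (v + (k : ℤ) • u)‖ := by
    rw [rv_add, rv_smul]
    have h1 : ‖((k : ℤ) : ℝ) • rv u‖ = k * ‖rv u‖ := by
      rw [norm_smul]; simp
    have h2 := norm_sub_norm_le (((k : ℤ) : ℝ) • rv u) (-rv v)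
    rw [sub_neg_eq_add, norm_neg, add_comm (((k : ℤ) : ℝ) • rv u)] at h2
    have h3 := norm_rv_ge huv
    have h4 : (0:ℝ) ≤ k := Nat.cast_nonneg k
    nlinarith
  have hd : |detR m (rv (v + (k : ℤ) • u))| ≤ |detR m (rv v)| + k * (ε / 2) := by
    have e : detR m (rv (v + (k : ℤ) • u)) = detR m (rv v) + k * detR m (rv u) := by
      rw [rv_add, rv_smul]; unfold detR; simp; ring
    rw [e]
    refine (abs_add_le _ _).trans ?_
    rw [abs_mul, abs_of_nonneg (show (0:ℝ) ≤ (k:ℝ) from Nat.cast_nonneg k)]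
    gcongr
  refine ⟨by linarith, hd.trans ?_⟩
  have h5 : |detR m (rv v)| / ε * ε = |detR m (rv v)| := by field_simp
  have h6 : ε * (k - ‖rv v‖) ≤ ε * ‖rv (v + (k : ℤ) • u)‖ := by gcongr
  refine le_trans ?_ h6
  have h7 : ε * (2 * (|detR m (rv v)| / ε + ‖rv v‖)) ≤ ε * k := by gcongr
  have h8 : ε * (2 * (|detR m (rv v)| / ε + ‖rv v‖)) = 2 * |detR m (rv v)| + 2 * ε * ‖rv v‖ := by
    field_simp
  linarith

/-- Every measured lamination is the limit of a sequence. -/
theorem exists_conv (b : Tor) {m : ℝ × ℝ} (hm : m ≠ 0) : ∃ X : ℕ → Tor, Nonempty (Conv X m) := by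
  choose u v huv hR hd using fun n : ℕ => exists_dir hm (1 / ((n : ℝ) + 1)) n (by positivity)
  obtain ⟨y, hy⟩ := exists_compl hm
  obtain ⟨cb, hcb, hlow⟩ := b.exists_lower
  refine ⟨fun n => b.act (huv n), ⟨?_⟩⟩
  refine
    { hK := ?_
      u := u
      u' := v
      hb := huv
      C := b.len e1
      hC := ?_
      y := y
      hy := hy
      hdir := ?_ }
  · have h1 : ∀ n, cb * n ≤ (b.act (huv n)).K := by
      intro n
      have k1 := hlow (rv (co (u n) (v n) e1))
      have k2 := hlow (rv (co (u n) (v n) e2))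
      rw [b.N_rv ((basis_co (huv n) e1 e2).2 basis_e)] at k1
      rw [b.N_rv ((basis_co (huv n) e2 e1).2 basis_e')] at k2
      have hs : |((det (u n) (v n) : ℤ) : ℝ)| = 1 := by
        rcases huv n with h | h <;> rw [h] <;> simp
      have n1 : |((u n).2 : ℝ)| ≤ ‖rv (co (u n) (v n) e1)‖ := by
        have := norm_snd_le (rv (co (u n) (v n) e1))
        refine le_trans (le_of_eq ?_) this
        unfold rv co
        simp only [Real.norm_eq_abs, Int.cast_mul, abs_mul, hs]
        unfold det; simp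
      have n2 : |((u n).1 : ℝ)| ≤ ‖rv (co (u n) (v n) e2)‖ := by
        have := norm_snd_le (rv (co (u n) (v n) e2))
        refine le_trans (le_of_eq ?_) this
        unfold rv co
        simp only [Real.norm_eq_abs, Int.cast_mul, abs_mul, hs]
        unfold det; simp
      have n3 : ‖rv (u n)‖ ≤ |((u n).1 : ℝ)| + |((u n).2 : ℝ)| := by
        unfold rv
        rw [Prod.norm_def, Real.norm_eq_abs, Real.norm_eq_abs]
        exact max_le (by linarith [abs_nonneg ((u n).2 : ℝ)]) (by linarith [abs_nonneg ((u n).1 : ℝ)])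
      have h0 := hR n
      show cb * n ≤ (b.act (huv n)).len e1 + (b.act (huv n)).len e2
      rw [act_len, act_len]
      nlinarith
    refine tendsto_atTop_mono h1 ?_
    exact Tendsto.const_mul_atTop hcb tendsto_natCast_atTop_atTop
  · intro n
    rw [act_len]
    have : co (u n) (v n) (u n) = e1 := by
      have hs := det_sq (huv n)
      have h0 : det (u n) (u n) = 0 := by unfold det; ring
      unfold co; rw [hs, h0, zero_mul]
    rw [this]
  · refine squeeze_zero (fun n => by positivity) (g := fun n : ℕ => 1 / ((n : ℝ) + 1)) ?_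
      tendsto_one_div_add_atTop_nhds_zero_nat
    intro n
    have := norm_rv_ge (huv n)
    rw [div_le_iff₀ (by linarith)]
    exact hd n

/-- The function determines the lamination up to a factor. -/
theorem inj (b : Tor) {m m' : ℝ × ℝ} (hm : m ≠ 0) (hm' : m' ≠ 0)
    (h : ∀ Z : Tor, log (Z.N m / b.N m) = log (Z.N m' / b.N m')) : detR m m' = 0 := by
  by_contra hne
  obtain ⟨X, ⟨c⟩⟩ := exists_conv b hm
  obtain ⟨c0, hc0, hlong⟩ := c.long
  have hD : 0 < |detR m m'| := abs_pos.2 hne
  have b1 := b.N_pos hm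
  have b2 := b.N_pos hm'
  set B := b.N m' / b.N m
  have hB : 0 < B := div_pos b2 b1
  set Q := |detR m' c.y|
  have hQ : 0 ≤ Q := abs_nonneg _
  have hs := c.short (|detR m m'| * c0 / (2 * (B + Q + 1))) (by positivity)
  obtain ⟨n, h1, h2⟩ := (hlong.and hs).exists
  have hK := (X n).K_pos
  have i1 := (X n).N_lower1 c.hy m'
  have z1 := (X n).N_pos hm
  have z2 := (X n).N_pos hm'
  have e := h (X n)
  have e' : (X n).N m / b.N m = (X n).N m' / b.N m' :=
    Real.log_injOn_pos (div_pos z1 b1) (div_pos z2 b2) e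
  have e'' : (X n).N m' = B * (X n).N m := by
    rw [div_eq_div_iff b1.ne' b2.ne'] at e'
    simp only [B]
    field_simp
    linarith
  rw [e''] at i1
  have i2 : |detR m m'| * (c0 * (X n).K) ≤ (B + Q) * (X n).N m := by
    calc |detR m m'| * (c0 * (X n).K) ≤ |detR m m'| * (X n).N c.y := by gcongr
      _ ≤ _ := by linarith
  have i3 : (B + Q) * (X n).N m ≤ (B + Q + 1) * (|detR m m'| * c0 / (2 * (B + Q + 1)) * (X n).K) :=
    mul_le_mul (by linarith) h2 z1.le (by positivity)
  have i4 : (B + Q + 1) * (|detR m m'| * c0 / (2 * (B + Q + 1)) * (X n).K) =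
      |detR m m'| * c0 * (X n).K / 2 := by field_simp
  have : 0 < |detR m m'| * c0 * (X n).K := by positivity
  nlinarith

end Tor

end Run7.h568.HB
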