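import Pool.Agent.Run7.h568.HB.G

open Real Filter Topology

noncomputable section

namespace Run7.h568.HB

namespace Tor

theorem S_lower (X Z : Tor) : 1 / X.K ≤ sSup (ratios X Z) := by
  have h1 := le_S X Z basis_e
  have h2 := le_S X Z basis_e'
  have p1 := X.len_pos basis_e
  have p2 := X.len_pos basis_e'
  have hS := S_pos X Z
  rw [div_le_iff₀ X.K_pos]
  unfold K
  by_contra hc
  push Not at hc
  apply Z.not_both basis_e
  · nlinarith
  · nlinarith

/-- A basis with one long vector, both vectors near the line of `m`. -/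
theorem exists_strip {m : ℝ × ℝ} (hm : m ≠ 0) (k : ℕ) :
    ∃ u v : ℤ × ℤ, Basis u v ∧ (k : ℝ) ≤ ‖rv u‖ ∧ |detR m (rv u)| ≤ 2 * ‖m‖ + 2 ∧
      |detR m (rv v)| ≤ 1 := by
  have hk : (0:ℝ) < k + 1 := by positivity
  obtain ⟨u, v, huv, hu, hv⟩ : ∃ u v : ℤ × ℤ, Basis u v ∧ |detR m (rv u)| ≤ 1 / ((k:ℝ) + 1) ∧
      |detR m (rv v)| ≤ 2 * ‖m‖ + 1 := by
    by_cases h2 : m.2 = 0
    · refine ⟨e1, e2, basis_e, ?_, ?_⟩
      · have : detR m (rv e1) = 0 := by unfold detR rv; simp [h2]
        rw [this]; simp; positivity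
      · have h3 := detR_le m (rv e2)
        have h4 : ‖rv e2‖ = 1 := by unfold rv; simp [Prod.norm_def]
        rw [h4] at h3; linarith
    · obtain ⟨u, v, h, h1, h3⟩ := exists_near m h2 (1 / ((k:ℝ) + 1)) (by positivity)
      refine ⟨u, v, h, h1.le, ?_⟩
      have hle : 1 / ((k:ℝ) + 1) ≤ 1 := by
        rw [div_le_one hk]; linarith [Nat.cast_nonneg (α := ℝ) k]
      have hn := norm_nonneg m
      by_cases h0 : 0 < |detR m (rv u)|
      · linarith [h3 h0]
      · have h0' : detR m (rv u) = 0 := by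
          by_contra hne; exact h0 (abs_pos.2 hne)
        -- `detR m v * u = ± m`
        have hd : |((det u v : ℤ) : ℝ)| = 1 := by
          rcases h with h | h <;> rw [h] <;> simp
        have e : (detR m (rv v)) • rv u = ((det u v : ℤ) : ℝ) • m + (detR m (rv u)) • rv v := by
          unfold detR rv det
          ext
          · simp; ring
          · simp; ring
        rw [h0', zero_smul, add_zero] at e
        have e2 : |detR m (rv v)| * ‖rv u‖ = ‖m‖ := by
          have := congrArg norm e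
          rwa [norm_smul, norm_smul, Real.norm_eq_abs, Real.norm_eq_abs, hd, one_mul] at this
        have h5 := norm_rv_ge h
        nlinarith [abs_nonneg (detR m (rv v))]
  have main : ∀ s : ℤ, |(s : ℝ)| = 1 → (k:ℝ) ≤ ‖rv (v + (s * k) • u)‖ →
      ∃ u v : ℤ × ℤ, Basis u v ∧ (k : ℝ) ≤ ‖rv u‖ ∧ |detR m (rv u)| ≤ 2 * ‖m‖ + 2 ∧
      |detR m (rv v)| ≤ 1 := by
    intro s hs hn
    refine ⟨_, u, basis_swap (basis_shift huv (s * k)), hn, ?_, ?_⟩
    · have e : detR m (rv (v + (s * (k:ℤ)) • u)) = detR m (rv v) + s * k * detR m (rv u) := by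
        rw [rv_add, rv_smul]; unfold detR; simp; ring
      rw [e]
      refine (abs_add_le _ _).trans ?_
      rw [abs_mul, abs_mul, hs, one_mul, abs_of_nonneg (show (0:ℝ) ≤ (k:ℝ) from Nat.cast_nonneg k)]
      have : (k:ℝ) * |detR m (rv u)| ≤ k * (1 / ((k:ℝ) + 1)) := by gcongr
      have h6 : (k:ℝ) * (1 / ((k:ℝ) + 1)) ≤ 1 := by
        rw [mul_one_div, div_le_one hk]; linarith
      linarith
    · refine hu.trans ?_
      rw [div_le_one hk]; linarith [Nat.cast_nonneg (α := ℝ) k]
  have h7 := norm_rv_ge huv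
  have e3 : (2 * (k:ℝ)) • rv u = rv (v + (1 * (k:ℤ)) • u) - rv (v + (-1 * (k:ℤ)) • u) := by
    rw [rv_add, rv_add, rv_smul, rv_smul]; push_cast; module
  have h8 : 2 * (k:ℝ) ≤ ‖rv (v + (1 * (k:ℤ)) • u)‖ + ‖rv (v + (-1 * (k:ℤ)) • u)‖ := by
    have := norm_sub_le (rv (v + (1 * (k:ℤ)) • u)) (rv (v + (-1 * (k:ℤ)) • u))
    rw [← e3, norm_smul, Real.norm_eq_abs, abs_of_nonneg (by positivity)] at this
    nlinarith [Nat.cast_nonneg (α := ℝ) k]
  by_cases h9 : (k:ℝ) ≤ ‖rv (v + (1 * (k:ℤ)) • u)‖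
  · exact main 1 (by simp) h9
  · exact main (-1) (by simp) (by push Not at h9; linarith)

theorem K_act (b : Tor) {c : ℝ} (hc : 0 < c) (hlow : ∀ x, c * ‖x‖ ≤ b.N x) {u v : ℤ × ℤ}
    (h : Basis u v) : c * ‖rv u‖ ≤ (b.act h).K := by
  have k1 := hlow (rv (co u v e1))
  have k2 := hlow (rv (co u v e2))
  rw [b.N_rv ((basis_co h e1 e2).2 basis_e)] at k1
  rw [b.N_rv ((basis_co h e2 e1).2 basis_e')] at k2
  have hs : |((det u v : ℤ) : ℝ)| = 1 := by
    rcases h with h | h <;> rw [h] <;> simp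
  have n1 : |(u.2 : ℝ)| ≤ ‖rv (co u v e1)‖ := by
    have := norm_snd_le (rv (co u v e1))
    refine le_trans (le_of_eq ?_) this
    unfold rv co
    simp only [Real.norm_eq_abs, Int.cast_mul, abs_mul, hs]
    unfold det; simp
  have n2 : |(u.1 : ℝ)| ≤ ‖rv (co u v e2)‖ := by
    have := norm_snd_le (rv (co u v e2))
    refine le_trans (le_of_eq ?_) this
    unfold rv co
    simp only [Real.norm_eq_abs, Int.cast_mul, abs_mul, hs]
    unfold det; simp
  have n3 : ‖rv u‖ ≤ |(u.1 : ℝ)| + |(u.2 : ℝ)| := by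
    unfold rv
    rw [Prod.norm_def, Real.norm_eq_abs, Real.norm_eq_abs]
    exact max_le (by linarith [abs_nonneg (u.2 : ℝ)]) (by linarith [abs_nonneg (u.1 : ℝ)])
  show c * ‖rv u‖ ≤ (b.act h).len e1 + (b.act h).len e2
  rw [act_len, act_len]
  nlinarith

theorem act_len_u (b : Tor) {u v : ℤ × ℤ} (h : Basis u v) : (b.act h).len u = b.len e1 := by
  rw [act_len]
  have hs := det_sq h
  have h0 : det u u = 0 := by unfold det; ring
  unfold co; rw [hs, h0, zero_mul]

theorem act_len_v (b : Tor) {u v : ℤ × ℤ} (h : Basis u v) : (b.act h).len v = b.len e2 := by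
  rw [act_len]
  have hs := det_sq h
  have h0 : det v v = 0 := by unfold det; ring
  unfold co; rw [hs, h0, zero_mul]

/-- The limits are not functions of points of Teichmueller space. -/
theorem not_inner (b X : Tor) {m : ℝ × ℝ} (hm : m ≠ 0) :
    ∃ Z, dTh X Z - dTh X b ≠ log (Z.N m / b.N m) := by
  by_contra hc
  push Not at hc
  obtain ⟨c, hcp, hlow⟩ := b.exists_lower
  have hbm := b.N_pos hm
  set A := (2 * ‖m‖ + 2) * b.len e2 + b.len e1 with hA
  have hbound : ∀ k : ℕ, c * k / X.K ≤ 2 * (sSup (ratios X b) * (A / b.N m)) := by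
    intro k
    obtain ⟨u, v, huv, hu, h1, h2⟩ := exists_strip hm k
    set Z := b.act huv
    have hN : Z.N m ≤ A := by
      have hs : ((det u v : ℤ) : ℝ) * ((det u v : ℤ) : ℝ) = 1 := by exact_mod_cast det_sq huv
      have habs : |((det u v : ℤ) : ℝ)| = 1 := by
        rcases huv with h | h <;> rw [h] <;> simp
      have e : m = (((det u v : ℤ) : ℝ) * detR m (rv v)) • rv u +
          (-((det u v : ℤ) : ℝ) * detR m (rv u)) • rv v := by
        have hs' : ((u.1:ℝ) * v.2 - u.2 * v.1) * ((u.1:ℝ) * v.2 - u.2 * v.1) = 1 := by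
          have := hs; unfold det at this; push_cast at this; exact this
        unfold detR rv det
        ext
        · simp; linear_combination (-m.1) * hs'
        · simp; linear_combination (-m.2) * hs'
      have h3 : Z.N m ≤ |detR m (rv v)| * b.len e1 + |detR m (rv u)| * b.len e2 := by
        conv_lhs => rw [e]
        refine (Z.N_add _ _).trans ?_
        rw [N_smul, N_smul, abs_mul, abs_mul, abs_neg, habs, one_mul, one_mul, Z.N_rv huv,
          Z.N_rv (basis_swap huv), act_len_u, act_len_v]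
      have p1 := b.len_pos basis_e
      have p2 := b.len_pos basis_e'
      rw [hA]
      nlinarith
    have hK : c * k ≤ Z.K := (by gcongr : c * k ≤ c * ‖rv u‖).trans (K_act b hcp hlow huv)
    have hS : Z.K ≤ sSup (ratios X Z) * X.K := by
      have s1 := le_S X Z basis_e
      have s2 := le_S X Z basis_e'
      unfold K; linarith
    have hZm := Z.N_pos hm
    have e2 : sSup (ratios X Z) = sSup (ratios X b) * (Z.N m / b.N m) := by
      have h4 := hc Z
      unfold dTh at h4
      rw [← Real.log_div (S_pos _ _).ne' (S_pos _ _).ne'] at h4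
      have h5 := Real.log_injOn_pos (div_pos (S_pos X Z) (S_pos X b)) (div_pos hZm hbm) h4
      rw [div_eq_iff (S_pos X b).ne'] at h5
      rw [h5]; ring
    have hSb := S_pos X b
    rw [div_le_iff₀ X.K_pos]
    calc c * k ≤ Z.K := hK
      _ ≤ sSup (ratios X Z) * X.K := hS
      _ = sSup (ratios X b) * (Z.N m / b.N m) * X.K := by rw [e2]
      _ ≤ sSup (ratios X b) * (A / b.N m) * X.K := by
          have := X.K_pos
          gcongr
      _ ≤ 2 * (sSup (ratios X b) * (A / b.N m)) * X.K := by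
          have := X.K_pos
          have hA0 : 0 ≤ A := hZm.le.trans hN
          have : 0 ≤ sSup (ratios X b) * (A / b.N m) * X.K := by positivity
          linarith
  obtain ⟨k, hk⟩ := exists_nat_gt (2 * (sSup (ratios X b) * (A / b.N m)) * X.K / c)
  have := hbound k
  have hKp := X.K_pos
  rw [div_le_iff₀ hKp] at this
  rw [div_lt_iff₀ hcp] at hk
  linarith

/-- The triangle inequality. -/
theorem S_tri (X Z Z' : Tor) : sSup (ratios X Z) ≤ sSup (ratios X Z') * sSup (ratios Z' Z) := by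
  apply S_le
  intro w w' hw
  have h1 := le_S X Z' hw
  have h2 := le_S Z' Z hw
  have := S_pos Z' Z
  calc Z.len w ≤ sSup (ratios Z' Z) * Z'.len w := h2
    _ ≤ sSup (ratios Z' Z) * (sSup (ratios X Z') * X.len w) := by gcongr
    _ = _ := by ring

theorem dTh_tri (X Z Z' : Tor) : dTh X Z ≤ dTh X Z' + dTh Z' Z := by
  unfold dTh
  rw [← Real.log_mul (S_pos _ _).ne' (S_pos _ _).ne']
  exact Real.log_le_log (S_pos _ _) (S_tri X Z Z')

end Tor

end Run7.h568.HB
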