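import Pool.Agent.Run7.h568.HB.H

open Real Filter Topology

noncomputable section

namespace Run7.h568.HB

namespace Tor

/-- Rational directions are dense. -/
theorem dense_dir {x : ℝ × ℝ} (hx : x ≠ 0) (ε : ℝ) (hε : 0 < ε) :
    ∃ (u v : ℤ × ℤ) (r : ℝ), Basis u v ∧ ‖x - r • rv u‖ < ε := by
  obtain ⟨y, hy⟩ := exists_compl hx
  have hn : 0 < ‖x‖ := norm_pos_iff.2 hx
  have hy0 := norm_nonneg y
  obtain ⟨u, v, huv, _, hd⟩ := exists_dir hx (min (1 / (2 * (‖y‖ + 1)))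
    (ε / (4 * ‖x‖ * (‖y‖ + 1)))) 0 (by positivity)
  have hu := norm_rv_ge huv
  have hu0 : 0 < ‖rv u‖ := by linarith
  have g3 : |detR x (rv u)| ≤ 1 / (2 * (‖y‖ + 1)) * ‖rv u‖ := hd.trans (by gcongr; exact min_le_left _ _)
  have g4 : |detR x (rv u)| ≤ ε / (4 * ‖x‖ * (‖y‖ + 1)) * ‖rv u‖ := hd.trans (by gcongr; exact min_le_right _ _)
  have i1 := norm_decomp hy (rv u)
  have j1 : |detR x (rv u)| * ‖y‖ ≤ ‖rv u‖ / 2 := by
    have : |detR x (rv u)| * ‖y‖ ≤ (1 / (2 * (‖y‖ + 1)) * ‖rv u‖) * ‖y‖ := by gcongr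
    refine this.trans ?_
    rw [div_mul_eq_mul_div, div_mul_eq_mul_div, div_le_iff₀ (by positivity)]
    nlinarith
  have j2 : ‖rv u‖ / 2 ≤ |detR (rv u) y| * ‖x‖ := by linarith
  have hD : 0 < |detR (rv u) y| := by
    by_contra hc
    push Not at hc
    nlinarith
  refine ⟨u, v, (detR (rv u) y)⁻¹, huv, ?_⟩
  have e : x - (detR (rv u) y)⁻¹ • rv u = (-(detR (rv u) y)⁻¹ * detR x (rv u)) • y := by
    have h1 := detR_decomp hy (rv u)
    have hne : detR (rv u) y ≠ 0 := abs_pos.1 hD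
    have h2 : (detR (rv u) y)⁻¹ • rv u = x + ((detR (rv u) y)⁻¹ * detR x (rv u)) • y := by
      conv_lhs => rw [h1]
      rw [smul_add, smul_smul, smul_smul, ← h1, inv_mul_cancel₀ hne, one_smul]
    rw [h2]; module
  rw [e, norm_smul, Real.norm_eq_abs, abs_mul, abs_neg, abs_inv]
  rw [inv_mul_eq_div, div_mul_eq_mul_div, div_lt_iff₀ hD]
  have j3 : |detR x (rv u)| * ‖y‖ ≤ ε / (4 * ‖x‖) * ‖rv u‖ := by
    calc |detR x (rv u)| * ‖y‖ ≤ (ε / (4 * ‖x‖ * (‖y‖ + 1)) * ‖rv u‖) * (‖y‖ + 1) := by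
          gcongr; linarith
      _ = ε / (4 * ‖x‖) * ‖rv u‖ := by field_simp
  have j4 : ε / (4 * ‖x‖) * ‖rv u‖ ≤ ε / 2 * |detR (rv u) y| := by
    rw [div_mul_eq_mul_div, div_le_iff₀ (by positivity)]
    nlinarith
  have : 0 < ε * |detR (rv u) y| := by positivity
  linarith

/-- The norms depend uniformly on the point. -/
theorem near_N (Z : Tor) (ε : ℝ) (hε : 0 < ε) : ∀ᶠ Y in 𝓝 Z, ∀ x, |Y.N x - Z.N x| ≤ ε * ‖x‖ := by
  have hK := Z.K_pos
  set δ := ε / (2 * (Z.K + 1)) with hδ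
  have hδ0 : 0 < δ := by positivity
  have hne : ∀ x ∈ Metric.sphere (0 : ℝ × ℝ) 1, x ≠ 0 := by
    rintro x hx rfl
    simp at hx
  choose! u v r huv hr using fun (x : ℝ × ℝ) (hx : x ≠ 0) => dense_dir hx (δ / 4) (by positivity)
  obtain ⟨t, ht, hcov⟩ := (isCompact_sphere (0 : ℝ × ℝ) 1).elim_nhds_subcover
    (fun x => Metric.ball x (δ / 4)) (fun x _ => Metric.ball_mem_nhds x (by positivity))
  have h1 : ∀ᶠ Y in 𝓝 Z, ∀ x ∈ t, |r x| * |Y.len (u x) - Z.len (u x)| < ε / 4 := by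
    rw [eventually_all_finset]
    intro x hx
    have hc : Continuous fun Y : Tor => |r x| * |Y.len (u x) - Z.len (u x)| := by
      have := cont_len (huv x (hne x (ht x hx)))
      fun_prop
    have h0 : |r x| * |Z.len (u x) - Z.len (u x)| < ε / 4 := by simp; positivity
    exact hc.tendsto Z |>.eventually_lt_const h0
  have h2 : ∀ᶠ Y in 𝓝 Z, Y.K < Z.K + 1 := (cont_K.tendsto Z).eventually_lt_const (by linarith)
  filter_upwards [h1, h2] with Y g1 g2
  have unit : ∀ x ∈ Metric.sphere (0 : ℝ × ℝ) 1, |Y.N x - Z.N x| ≤ ε := by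
    intro x hx
    obtain ⟨x0, hx0, hxx⟩ := Set.mem_iUnion₂.1 (hcov hx)
    have hx00 := hne x0 (ht x0 hx0)
    have hb := huv x0 hx00
    rw [Metric.mem_ball, dist_eq_norm] at hxx
    have hd : ‖x - r x0 • rv (u x0)‖ ≤ δ / 2 := by
      have : x - r x0 • rv (u x0) = (x - x0) + (x0 - r x0 • rv (u x0)) := by abel
      rw [this]
      refine (norm_add_le _ _).trans ?_
      linarith [hr x0 hx00]
    have a1 := (Y.N_lip x (r x0 • rv (u x0)))
    have a2 := (Z.N_lip x (r x0 • rv (u x0)))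
    have a3 := g1 x0 hx0
    have a4 : |Y.N (r x0 • rv (u x0)) - Z.N (r x0 • rv (u x0))| < ε / 4 := by
      rw [N_smul, N_smul, Y.N_rv hb, Z.N_rv hb, ← mul_sub, abs_mul, abs_abs]; exact a3
    have b1 : Y.K * ‖x - r x0 • rv (u x0)‖ ≤ (Z.K + 1) * (δ / 2) := by
      have := Y.K_pos
      gcongr
    have b2 : Z.K * ‖x - r x0 • rv (u x0)‖ ≤ (Z.K + 1) * (δ / 2) := by
      gcongr; linarith
    have b3 : (Z.K + 1) * (δ / 2) = ε / 4 := by rw [hδ]; field_simp; ring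
    rw [b3] at b1 b2
    have := abs_le.1 a1
    have := abs_le.1 a2
    have := abs_lt.1 a4
    rw [abs_le]; constructor <;> linarith
  intro x
  by_cases hx : x = 0
  · subst hx
    have h0 : ∀ W : Tor, W.N 0 = 0 := fun W => by
      have := W.N_smul 0 0
      simpa using this
    simp [h0]
  · have hn : 0 < ‖x‖ := norm_pos_iff.2 hx
    have := unit (‖x‖⁻¹ • x) (by simp [norm_smul, hn.ne'])
    rw [N_smul, N_smul, ← mul_sub, abs_mul, abs_abs, abs_of_pos (inv_pos.2 hn),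
      inv_mul_eq_div, div_le_iff₀ hn] at this
    exact this

theorem near_S (Z : Tor) (ε : ℝ) (hε : 0 < ε) :
    ∀ᶠ Y in 𝓝 Z, dTh Z Y ≤ ε ∧ dTh Y Z ≤ ε := by
  obtain ⟨c, hc, hlow⟩ := Z.exists_lower
  set q := 1 - exp (-ε) with hq
  have hexp : exp (-ε) < 1 := by rw [Real.exp_lt_one_iff]; linarith
  have hexp0 := Real.exp_pos (-ε)
  have hq0 : 0 < q := by linarith
  have hq1 : q < 1 := by linarith
  filter_upwards [near_N Z (c * q) (by positivity)] with Y h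
  have key : ∀ w w', Basis w w' → |Y.len w - Z.len w| ≤ q * Z.len w := by
    intro w w' hw
    have h1 := h (rv w)
    have h2 := hlow (rv w)
    rw [Y.N_rv hw, Z.N_rv hw] at h1
    rw [Z.N_rv hw] at h2
    nlinarith
  have he : exp ε * exp (-ε) = 1 := by rw [← Real.exp_add]; simp
  constructor
  · unfold dTh
    rw [← Real.log_exp ε]
    apply Real.log_le_log (S_pos _ _)
    apply S_le
    intro w w' hw
    have h1 := (abs_le.1 (key w w' hw)).2
    have h2 := Z.len_pos hw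
    have h3 : 1 + q ≤ exp ε := by
      have : 1 ≤ exp ε := Real.one_le_exp hε.le
      nlinarith [sq_nonneg (exp ε - 1)]
    nlinarith
  · unfold dTh
    rw [← Real.log_exp ε]
    apply Real.log_le_log (S_pos _ _)
    apply S_le
    intro w w' hw
    have h1 := (abs_le.1 (key w w' hw)).1
    have h2 := Z.len_pos hw
    have h3 : exp (-ε) * Z.len w ≤ Y.len w := by rw [hq] at h1; nlinarith
    calc Z.len w = exp ε * (exp (-ε) * Z.len w) := by rw [← mul_assoc, he, one_mul]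
      _ ≤ exp ε * Y.len w := by gcongr

/-- Pointwise limits are uniform on compact sets. -/
theorem unif (b : Tor) (X : ℕ → Tor) (ψ : Tor → ℝ)
    (hψ : ∀ Z, Tendsto (fun n => dTh (X n) Z - dTh (X n) b) atTop (𝓝 (ψ Z)))
    (C : Set Tor) (hC : IsCompact C) :
    TendstoUniformlyOn (fun n Z => dTh (X n) Z - dTh (X n) b) ψ atTop C := by
  rw [Metric.tendstoUniformlyOn_iff]
  intro ε hε
  have hε4 : 0 < ε / 4 := by positivity
  obtain ⟨t, _, hcov⟩ := hC.elim_nhds_subcover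
    (fun Z => {Y | dTh Z Y ≤ ε / 4 ∧ dTh Y Z ≤ ε / 4}) (fun Z _ => near_S Z (ε / 4) hε4)
  have h1 : ∀ᶠ n in atTop, ∀ Z ∈ t, |dTh (X n) Z - dTh (X n) b - ψ Z| < ε / 4 := by
    rw [eventually_all_finset]
    intro Z _
    have := (Metric.tendsto_nhds.1 (hψ Z)) (ε / 4) hε4
    filter_upwards [this] with n hn
    rwa [Real.dist_eq] at hn
  filter_upwards [h1] with n hn Y hY
  obtain ⟨Z, hZ, hYZ⟩ := Set.mem_iUnion₂.1 (hcov hY)
  obtain ⟨k1, k2⟩ := hYZ
  have a1 := hn Z hZ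
  have lip : ∀ k, |(dTh (X k) Y - dTh (X k) b) - (dTh (X k) Z - dTh (X k) b)| ≤ ε / 4 := by
    intro k
    have t1 := dTh_tri (X k) Y Z
    have t2 := dTh_tri (X k) Z Y
    rw [abs_le]; constructor <;> linarith
  have lim : |ψ Y - ψ Z| ≤ ε / 4 :=
    le_of_tendsto ((hψ Y).sub (hψ Z)).abs (Eventually.of_forall lip)
  have a2 := lip n
  rw [Real.dist_eq]
  have := abs_lt.1 a1
  have := abs_le.1 a2
  have := abs_le.1 lim
  rw [abs_lt]; constructor <;> linarith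

end Tor

end Run7.h568.HB
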