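import Pool.Agent.Run7.h568.HB.U

open Real Filter Topology

noncomputable section

namespace Run7.h568.HB

/-- A point of the Teichmueller space of the four-punctured sphere: traces of the simple closed
curves. -/
structure Sph where
  t : ℤ × ℤ → ℝ
  neg : ∀ w, t (-w) = t w
  big : ∀ u v, Basis u v → 2 < t u
  edge : ∀ u v, Basis u v → t (u + v) + t (u - v) = t u * t v - 8
  vert : ∀ u v, Basis u v → t u ^ 2 + t v ^ 2 + t (u + v) ^ 2 +
    8 * (t u + t v + t (u + v)) + 28 = t u * t v * t (u + v)
  triv : ∀ w, (∀ v, ¬ Basis w v) → t w = 0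

/-- Length of the closed geodesic: `t = 2 cosh (len / 2)`. -/
def Sph.len (X : Sph) (w : ℤ × ℤ) : ℝ := 2 * log ((X.t w + √(X.t w ^ 2 - 4)) / 2)

instance : TopologicalSpace Sph := TopologicalSpace.induced Sph.t inferInstance

theorem basis_neg {w v : ℤ × ℤ} : Basis (-w) v ↔ Basis w v := by
  unfold Basis det; simp; constructor <;> intro h <;> omega

theorem prim_neg (w : ℤ × ℤ) : (∃ v, Basis (-w) v) ↔ ∃ v, Basis w v := by
  simp only [basis_neg]

theorem prim_add {u v : ℤ × ℤ} (h : Basis u v) : ∃ x, Basis (u + v) x := ⟨v, Tor.basis_add_left h⟩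

theorem prim_sub {u v : ℤ × ℤ} (h : Basis u v) : ∃ x, Basis (u - v) x := by
  refine ⟨v, ?_⟩
  unfold Basis det at *; simp only [Prod.fst_sub, Prod.snd_sub]
  rcases h with h | h
  · left; linear_combination h
  · right; linear_combination h

open Classical in
/-- From the torus to the sphere. -/
def toSph (X : Tor) : Sph where
  t w := if ∃ v, Basis w v then X.t w ^ 2 - 2 else 0
  neg w := by simp only [prim_neg, X.neg]
  big u v h := by
    have h1 := X.big u v h
    rw [if_pos ⟨v, h⟩]; nlinarith
  edge u v h := by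
    have h1 := X.edge u v h
    have h2 := X.vert u v h
    rw [if_pos (prim_add h), if_pos (prim_sub h), if_pos ⟨v, h⟩, if_pos ⟨u, Tor.basis_swap h⟩]
    have h3 : X.t (u - v) = X.t u * X.t v - X.t (u + v) := by linarith
    rw [h3]; linear_combination 2 * h2
  vert u v h := by
    have h2 := X.vert u v h
    rw [if_pos (prim_add h), if_pos ⟨v, h⟩, if_pos ⟨u, Tor.basis_swap h⟩]
    linear_combination (X.t u ^ 2 + X.t v ^ 2 + X.t (u + v) ^ 2 + X.t u * X.t v * X.t (u + v)) * h2
  triv w h := by rw [if_neg (by push Not; exact h)]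

open Classical in
/-- From the sphere to the torus. -/
def ofSph (Y : Sph) : Tor where
  t w := if ∃ v, Basis w v then √(Y.t w + 2) else 0
  neg w := by simp only [prim_neg, Y.neg]
  big u v h := by
    have h1 := Y.big u v h
    rw [if_pos ⟨v, h⟩]
    exact Real.lt_sqrt_of_sq_lt (by linarith)
  edge u v h := by
    have h1 := Y.edge u v h
    have h2 := Y.vert u v h
    have b1 := Y.big u v h
    have b2 := Y.big v u (Tor.basis_swap h)
    obtain ⟨x3, hx3⟩ := prim_add h
    obtain ⟨x4, hx4⟩ := prim_sub h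
    have b3 := Y.big _ _ hx3
    have b4 := Y.big _ _ hx4
    rw [if_pos (prim_add h), if_pos (prim_sub h), if_pos ⟨v, h⟩, if_pos ⟨u, Tor.basis_swap h⟩]
    have s1 := Real.sq_sqrt (show 0 ≤ Y.t u + 2 by linarith)
    have s2 := Real.sq_sqrt (show 0 ≤ Y.t v + 2 by linarith)
    have s3 := Real.sq_sqrt (show 0 ≤ Y.t (u + v) + 2 by linarith)
    have s4 := Real.sq_sqrt (show 0 ≤ Y.t (u - v) + 2 by linarith)
    have p1 := Real.sqrt_nonneg (Y.t u + 2)
    have p2 := Real.sqrt_nonneg (Y.t v + 2)
    have p3 := Real.sqrt_nonneg (Y.t (u + v) + 2)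
    have p4 := Real.sqrt_nonneg (Y.t (u - v) + 2)
    have q : √(Y.t (u + v) + 2) * √(Y.t (u - v) + 2) = Y.t u + Y.t v + 4 := by
      rw [← Real.sqrt_mul (by linarith), Real.sqrt_eq_iff_mul_self_eq (by nlinarith) (by linarith)]
      have : Y.t (u - v) = Y.t u * Y.t v - 8 - Y.t (u + v) := by linarith
      rw [this]; linear_combination -h2
    have hsq : (√(Y.t (u + v) + 2) + √(Y.t (u - v) + 2)) ^ 2 =
        (√(Y.t u + 2) * √(Y.t v + 2)) ^ 2 := by
      rw [mul_pow, s1, s2]
      linear_combination s3 + s4 + 2 * q + h1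
    exact (pow_left_inj₀ (by positivity) (by positivity) two_ne_zero).1 hsq
  vert u v h := by
    have h1 := Y.edge u v h
    have h2 := Y.vert u v h
    have b1 := Y.big u v h
    have b2 := Y.big v u (Tor.basis_swap h)
    obtain ⟨x3, hx3⟩ := prim_add h
    have b3 := Y.big _ _ hx3
    rw [if_pos (prim_add h), if_pos ⟨v, h⟩, if_pos ⟨u, Tor.basis_swap h⟩]
    have s1 := Real.sq_sqrt (show 0 ≤ Y.t u + 2 by linarith)
    have s2 := Real.sq_sqrt (show 0 ≤ Y.t v + 2 by linarith)
    have s3 := Real.sq_sqrt (show 0 ≤ Y.t (u + v) + 2 by linarith)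
    rw [s1, s2, s3]
    have hsq : (Y.t u + 2 + (Y.t v + 2) + (Y.t (u + v) + 2)) ^ 2 =
        (√(Y.t u + 2) * √(Y.t v + 2) * √(Y.t (u + v) + 2)) ^ 2 := by
      rw [mul_pow, mul_pow, s1, s2, s3]; linear_combination h2
    exact (pow_left_inj₀ (by positivity) (by positivity) two_ne_zero).1 hsq
  triv w h := by rw [if_neg (by push Not; exact h)]

theorem Sph.ext' {X Y : Sph} (h : X.t = Y.t) : X = Y := by
  cases X; cases Y; cases h; rfl

/-- The two Teichmueller spaces agree. -/
def equiv : Tor ≃ₜ Sph where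
  toFun := toSph
  invFun := ofSph
  left_inv X := by
    apply Tor.ext'
    ext w
    by_cases h : ∃ v, Basis w v
    · obtain ⟨v, hv⟩ := h
      have := X.big w v hv
      simp only [ofSph, toSph, if_pos (show ∃ v, Basis w v from ⟨v, hv⟩)]
      rw [sub_add_cancel, Real.sqrt_sq (by linarith)]
    · simp only [ofSph, if_neg h]
      rw [X.triv w (by push Not at h; exact h)]
  right_inv Y := by
    apply Sph.ext'
    ext w
    by_cases h : ∃ v, Basis w v
    · obtain ⟨v, hv⟩ := h
      have := Y.big w v hv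
      simp only [ofSph, toSph, if_pos (show ∃ v, Basis w v from ⟨v, hv⟩)]
      rw [Real.sq_sqrt (by linarith)]; ring
    · simp only [toSph, if_neg h]
      rw [Y.triv w (by push Not at h; exact h)]
  continuous_toFun := by
    refine continuous_induced_rng.2 (continuous_pi fun w => ?_)
    by_cases h : ∃ v, Basis w v
    · simp only [Function.comp, toSph, if_pos h]
      exact ((Tor.cont_t w).pow 2).sub continuous_const
    · simp only [Function.comp, toSph, if_neg h]
      exact continuous_const
  continuous_invFun := by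
    refine continuous_induced_rng.2 (continuous_pi fun w => ?_)
    have hc : Continuous fun Y : Sph => Y.t w := (continuous_apply w).comp continuous_induced_dom
    by_cases h : ∃ v, Basis w v
    · simp only [Function.comp, ofSph, if_pos h]
      exact (hc.add continuous_const).sqrt
    · simp only [Function.comp, ofSph, if_neg h]
      exact continuous_const

theorem len_double (X : Tor) {w w' : ℤ × ℤ} (h : Basis w w') :
    (equiv X).len w = 2 * X.len w := by
  have h1 := X.big w w' h
  have ht : (equiv X).t w = X.t w ^ 2 - 2 := by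
    show (toSph X).t w = _
    simp only [toSph, if_pos (show ∃ v, Basis w v from ⟨w', h⟩)]
  unfold Sph.len Tor.len Tor.E
  rw [ht]
  have e1 : (X.t w ^ 2 - 2) ^ 2 - 4 = (X.t w * √(X.t w ^ 2 - 4)) ^ 2 := by
    rw [mul_pow, Real.sq_sqrt (by nlinarith)]; ring
  rw [e1, Real.sqrt_sq (by positivity)]
  have e2 : (X.t w ^ 2 - 2 + X.t w * √(X.t w ^ 2 - 4)) / 2 =
      ((X.t w + √(X.t w ^ 2 - 4)) / 2) ^ 2 := by
    have := Real.sq_sqrt (show 0 ≤ X.t w ^ 2 - 4 by nlinarith)
    linear_combination (-(1:ℝ) / 4) * this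
  rw [e2, Real.log_pow]; push_cast; ring

end Run7.h568.HB
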